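import Pool.Agent.H7.L.N496_CV_Stm0

/-!
# Project CV: cones (helper722)
-/

set_option autoImplicit false

noncomputable section

namespace Pool.Agent.N496.CV

open Pool.Agent.W907.SG Pool.Agent.W461.SGN

namespace C722

/-- classes of functions closed under sums -/
structure Lin {X R : Type} [AddCommGroup R] (M : (X → R) → Prop) : Prop where
  zero : M 0
  add : ∀ f g, M f → M g → M (f + g)
  neg : ∀ f, M f → M (-f)

theorem Lin.sub {X R : Type} [AddCommGroup R] {M : (X → R) → Prop} (h : Lin M) {f g : X → R}
    (hf : M f) (hg : M g) : M (f - g) := by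
  rw [sub_eq_add_neg]
  exact h.add _ _ hf (h.neg _ hg)

theorem Lin.sgn {X R V : Type} [AddCommGroup R] [LinearOrder V] {M : (X → R) → Prop} (h : Lin M)
    {f : X → R} (hf : M f) (v : V) (T : Finset V) : M (sg v T • f) := by
  rcases sg_eq_or v T with h1 | h1
  · rw [h1, one_smul]; exact hf
  · rw [h1, neg_smul, one_smul]; exact h.neg _ hf

theorem Lin.sum {X R ι : Type} [AddCommGroup R] {M : (X → R) → Prop} (h : Lin M)
    (s : Finset ι) (F : ι → X → R) (hF : ∀ i ∈ s, M (F i)) : M (∑ i ∈ s, F i) := by
  classical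
  induction s using Finset.induction_on with
  | empty => simpa using h.zero
  | insert a s ha ih =>
    rw [Finset.sum_insert ha]
    exact h.add _ _ (hF a (Finset.mem_insert_self _ _))
      (ih (fun i hi => hF i (Finset.mem_insert_of_mem hi)))

variable {V : Type} [Fintype V] [LinearOrder V] (G : SimpleGraph V)

theorem bdf_add {R : Type} [AddCommGroup R] (c d : Finset V → W G → R) :
    bdf G (c + d) = bdf G c + bdf G d := by
  funext T w
  simp [bdf, Finset.sum_add_distrib]

theorem bdf_sub {R : Type} [AddCommGroup R] (c d : Finset V → W G → R) :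
    bdf G (c - d) = bdf G c - bdf G d := by
  funext T w
  simp [bdf, smul_sub, Finset.sum_sub_distrib]

theorem bdf_bdf {R : Type} [AddCommGroup R] (c : Finset V → W G → R) : bdf G (bdf G c) = 0 := by
  classical
  funext T w
  unfold bdf
  have h1 : ∀ v ∈ Tᶜ, (sg v T • ∑ u ∈ (insert v T)ᶜ, sg u (insert v T) • c (insert u (insert v T)) w)
      = ∑ u ∈ Tᶜ.erase v, (sg v T * sg u (insert v T)) • c (insert u (insert v T)) w := by
    intro v hv
    rw [Finset.smul_sum]
    have : (insert v T)ᶜ = Tᶜ.erase v := by
      ext u; simp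
    rw [this]
    exact Finset.sum_congr rfl fun u _ => by rw [smul_smul]
  rw [Finset.sum_congr rfl h1]
  rw [Finset.sum_sigma']
  refine Finset.sum_involution (fun (x : Σ _ : V, V) _ => ⟨x.2, x.1⟩) ?_ ?_ ?_ ?_
  · rintro ⟨v, u⟩ h
    simp only [Finset.mem_sigma, Finset.mem_compl, Finset.mem_erase] at h
    obtain ⟨hv, huv, hu⟩ := h
    simp only
    rw [Finset.insert_comm v u T, ← add_smul]
    have := sg_swap u v T huv hu hv
    have h0 : sg v T * sg u (insert v T) + sg u T * sg v (insert u T) = 0 := by
      rw [mul_comm (sg v T), this]; ring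
    rw [h0, zero_smul]
  · rintro ⟨v, u⟩ h _ h3
    simp only [Finset.mem_sigma, Finset.mem_compl, Finset.mem_erase] at h
    simp only [Sigma.mk.injEq, heq_eq_eq] at h3
    exact h.2.1 h3.1
  · rintro ⟨v, u⟩ h
    simp only [Finset.mem_sigma, Finset.mem_compl, Finset.mem_erase] at h ⊢
    exact ⟨h.2.2, fun e => h.2.1 e.symm, h.1⟩
  · rintro ⟨v, u⟩ _
    rfl

variable {G}

theorem ch_add {R : Type} [AddCommGroup R] {C : Set V} {M : (W G → R) → Prop} (hM : Lin M) {i : ℕ}
    {c d : Finset V → W G → R} (hc : IsCh G C M i c) (hd : IsCh G C M i d) :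
    IsCh G C M i (c + d) where
  supp := fun T hT => by
    rw [Pi.add_apply, hc.supp T hT, hd.supp T hT, add_zero]
  mem := fun T => hM.add _ _ (hc.mem T) (hd.mem T)
  anti := fun T t ht w => by
    rw [Pi.add_apply, Pi.add_apply, Pi.add_apply, hc.anti T t ht w, hd.anti T t ht w, neg_add]

theorem ch_sub {R : Type} [AddCommGroup R] {C : Set V} {M : (W G → R) → Prop} (hM : Lin M) {i : ℕ}
    {c d : Finset V → W G → R} (hc : IsCh G C M i c) (hd : IsCh G C M i d) :
    IsCh G C M i (c - d) where
  supp := fun T hT => by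
    rw [Pi.sub_apply, hc.supp T hT, hd.supp T hT, sub_zero]
  mem := fun T => hM.sub (hc.mem T) (hd.mem T)
  anti := fun T t ht w => by
    rw [Pi.sub_apply, Pi.sub_apply, Pi.sub_apply, hc.anti T t ht w, hd.anti T t ht w]
    abel

theorem ch_bdf {R : Type} [AddCommGroup R] {C : Set V} {M : (W G → R) → Prop} (hM : Lin M) {i : ℕ}
    {e : Finset V → W G → R} (he : IsCh G C M (i + 1) e) : IsCh G C M i (bdf G e) where
  supp := fun T hT => by
    funext w
    unfold bdf
    apply Finset.sum_eq_zero
    intro v hv
    rw [he.supp (insert v T), Pi.zero_apply, smul_zero]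
    rintro ⟨h3, h4, h5⟩
    apply hT
    refine ⟨h3.subset (by simp), fun x hx => h4 (by simp at hx ⊢; exact Or.inr hx), ?_⟩
    rw [Finset.card_insert_of_notMem (by simpa using hv)] at h5
    omega
  mem := fun T => by
    have h1 : bdf G e T = ∑ v ∈ Tᶜ, sg v T • e (insert v T) := by
      funext w
      simp [bdf]
    rw [h1]
    exact hM.sum _ _ (fun v _ => hM.sgn (he.mem _) v T)
  anti := fun T t ht w => by
    unfold bdf
    rw [← Finset.sum_neg_distrib]
    apply Finset.sum_congr rfl
    intro v _
    rw [he.anti (insert v T) t (Finset.mem_insert_of_mem ht) w, smul_neg]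

theorem ch_mono {R : Type} [AddCommGroup R] {C D : Set V} {M M' : (W G → R) → Prop} {i : ℕ}
    {c : Finset V → W G → R} (hCD : C ⊆ D) (hc : IsCh G C M i c) (hM : ∀ T, M' (c T)) :
    IsCh G D M' i c where
  supp := fun T hT => by
    apply hc.supp T
    rintro ⟨h1, h2, h3⟩
    exact hT ⟨h1, h2.trans hCD, h3⟩
  mem := hM
  anti := hc.anti


section InM

variable {R : Type} [Ring R] {K : Subgroup (W G)} {u : K →* R} {Y : Set (W G)}
  {E : Subgroup (W G × ℤˣ)}

theorem lin_InM : Lin (InM K u Y E) where
  zero :=
    { supp := fun w hw => absurd rfl hw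
      eqE := fun p _ w => by simp
      eqK := fun h w => by simp
      fin := ⟨∅, fun w hw => absurd rfl hw⟩ }
  add := fun f g hf hg =>
    { supp := fun w hw => by
        by_cases h : f w = 0
        · apply hg.supp
          intro h'
          apply hw
          rw [Pi.add_apply, h, h', add_zero]
        · exact hf.supp w h
      eqE := fun p hp w => by
        rw [Pi.add_apply, Pi.add_apply, hf.eqE p hp, hg.eqE p hp, smul_add]
      eqK := fun h w => by
        rw [Pi.add_apply, Pi.add_apply, hf.eqK, hg.eqK, add_mul]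
      fin := by
        classical
        obtain ⟨S1, h1⟩ := hf.fin
        obtain ⟨S2, h2⟩ := hg.fin
        refine ⟨S1 ∪ S2, fun w hw => ?_⟩
        by_cases h : f w = 0
        · have h' : g w ≠ 0 := by
            intro h'
            apply hw
            rw [Pi.add_apply, h, h', add_zero]
          obtain ⟨k, x, hx, p, hp, he⟩ := h2 w h'
          exact ⟨k, x, Finset.mem_union_right _ hx, p, hp, he⟩
        · obtain ⟨k, x, hx, p, hp, he⟩ := h1 w h
          exact ⟨k, x, Finset.mem_union_left _ hx, p, hp, he⟩ }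
  neg := fun f hf =>
    { supp := fun w hw => hf.supp w (by simpa using hw)
      eqE := fun p hp w => by
        rw [Pi.neg_apply, Pi.neg_apply, hf.eqE p hp, smul_neg]
      eqK := fun h w => by
        rw [Pi.neg_apply, Pi.neg_apply, hf.eqK, neg_mul]
      fin := by
        obtain ⟨S1, h1⟩ := hf.fin
        exact ⟨S1, fun w hw => h1 w (by simpa using hw)⟩ }

theorem commE {L : Set V} (hG : Good K L Y E) {s : V} (hs : s ∈ L) {p : W G × ℤˣ} (hp : p ∈ E) :
    p.1 * (cox G).simple s = (cox G).simple s * p.1 := by
  obtain ⟨Q, hQ, hadj⟩ := hG.comm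
  have h1 : Subgroup.closure ((cox G).simple '' Q) ≤
      Subgroup.centralizer {(cox G).simple s} := by
    rw [Subgroup.closure_le]
    rintro _ ⟨q, hq, rfl⟩
    rw [SetLike.mem_coe, Subgroup.mem_centralizer_iff]
    intro h hh
    rw [Set.mem_singleton_iff] at hh
    rw [hh]
    exact (simple_comm G q s (hadj q hq s hs)).symm
  have h2 := h1 (hQ p hp)
  rw [Subgroup.mem_centralizer_iff] at h2
  exact (h2 _ rfl).symm

/-- the elements of `addv E s 1` -/
theorem addv_mem {s : V} (hc : ∀ p ∈ E, p.1 * (cox G).simple s = (cox G).simple s * p.1)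
    {p : W G × ℤˣ} (hp : p ∈ addv E s 1) :
    p ∈ E ∨ ∃ q ∈ E, p = q * ((cox G).simple s, 1) := by
  set c : W G × ℤˣ := ((cox G).simple s, 1) with hcdef
  have hcc : c * c = 1 := by
    rw [hcdef, Prod.mk_mul_mk, simple_mul_self, one_mul]; rfl
  have hcomm : ∀ q ∈ E, q * c = c * q := by
    intro q hq
    apply Prod.ext
    · exact hc q hq
    · show q.2 * 1 = 1 * q.2
      rw [mul_one, one_mul]
  let H : Subgroup (W G × ℤˣ) :=
    { carrier := {p | p ∈ E ∨ ∃ q ∈ E, p = q * c}
      mul_mem' := by
        rintro a b (ha | ⟨a', ha', rfl⟩) (hb | ⟨b', hb', rfl⟩)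
        · exact Or.inl (E.mul_mem ha hb)
        · exact Or.inr ⟨a * b', E.mul_mem ha hb', (mul_assoc _ _ _).symm⟩
        · refine Or.inr ⟨a' * b, E.mul_mem ha' hb, ?_⟩
          rw [mul_assoc, ← hcomm b hb, mul_assoc]
        · refine Or.inl ?_
          have : a' * c * (b' * c) = a' * b' := by
            rw [hcomm b' hb', mul_assoc, ← mul_assoc c c b', hcc, one_mul]
          rw [this]
          exact E.mul_mem ha' hb'
      one_mem' := Or.inl E.one_mem
      inv_mem' := by
        rintro a (ha | ⟨a', ha', rfl⟩)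
        · exact Or.inl (E.inv_mem ha)
        · refine Or.inr ⟨a'⁻¹, E.inv_mem ha', ?_⟩
          have hci : c⁻¹ = c := inv_eq_of_mul_eq_one_left hcc
          rw [mul_inv_rev, hci, hcomm _ (E.inv_mem ha')] }
  have hle : addv E s 1 ≤ H := by
    refine sup_le (fun q hq => Or.inl hq) ?_
    rw [Subgroup.closure_le]
    intro x hx
    rw [Set.mem_singleton_iff] at hx
    rw [hx]
    exact Or.inr ⟨1, E.one_mem, (one_mul _).symm⟩
  exact hle hp

theorem le_addv (s : V) (e : ℤˣ) : E ≤ addv E s e := le_sup_left

theorem mem_addv (s : V) (e : ℤˣ) : ((cox G).simple s, e) ∈ addv E s e :=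
  (le_sup_right : _ ≤ addv E s e) (Subgroup.subset_closure rfl)

theorem Phi_mem {L : Set V} (hG : Good K L Y E) {s : V} (hs : s ∈ L) {f : W G → R}
    (hf : InM K u Y E f) :
    InM K u Y (addv E s 1) (fun w => f w + f (w * (cox G).simple s)) where
  supp := fun w hw => by
    by_cases h : f w = 0
    · have h' : f (w * (cox G).simple s) ≠ 0 := by
        intro h'
        apply hw
        show f w + f (w * (cox G).simple s) = 0
        rw [h, h', add_zero]
      have h2 := hG.YL s hs _ (hf.supp _ h')
      rwa [mul_assoc, simple_mul_self, mul_one] at h2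
    · exact hf.supp w h
  eqE := fun p hp w => by
    have key : ∀ q ∈ E, ∀ w, f (w * q.1) + f (w * q.1 * (cox G).simple s) =
        ((q.2 : ℤˣ) : ℤ) • (f w + f (w * (cox G).simple s)) := by
      intro q hq w
      rw [mul_assoc, commE hG hs hq, ← mul_assoc, hf.eqE q hq, hf.eqE q hq, smul_add]
    rcases addv_mem (fun q hq => commE hG hs hq) hp with h | ⟨q, hq, rfl⟩
    · exact key p h w
    · show f (w * (q.1 * (cox G).simple s)) + f (w * (q.1 * (cox G).simple s) * (cox G).simple s) =
        ((q.2 * 1 : ℤˣ) : ℤ) • (f w + f (w * (cox G).simple s))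
      rw [mul_one, ← key q hq w, add_comm]
      congr 2
      · rw [mul_assoc, mul_assoc, simple_mul_self, mul_one]
      · rw [mul_assoc]
  eqK := fun h w => by
    rw [mul_assoc, hf.eqK, hf.eqK, add_mul]
  fin := by
    obtain ⟨S1, h1⟩ := hf.fin
    refine ⟨S1, fun w hw => ?_⟩
    by_cases h : f w = 0
    · have h' : f (w * (cox G).simple s) ≠ 0 := by
        intro h'
        apply hw
        show f w + f (w * (cox G).simple s) = 0
        rw [h, h', add_zero]
      obtain ⟨k, x, hx, p, hp, he⟩ := h1 _ h'
      refine ⟨k, x, hx, p * ((cox G).simple s, 1), ?_, ?_⟩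
      · exact Subgroup.mul_mem _ (le_addv s 1 hp) (mem_addv s 1)
      · show w = k * x * (p.1 * (cox G).simple s)
        rw [← mul_assoc, ← he, mul_assoc, simple_mul_self, mul_one]
    · obtain ⟨k, x, hx, p, hp, he⟩ := h1 w h
      exact ⟨k, x, hx, p, le_addv s 1 hp, he⟩

theorem half_mem {L : Set V} (hG : Good K L Y E) {s : V} (hs : s ∈ L) (r : R) {g : W G → R}
    (hg : InM K u Y (addv E s 1) g) : InM K u Y E (fun w => r * g w) where
  supp := fun w hw => hg.supp w (fun h => hw (by show r * g w = 0; rw [h, mul_zero]))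
  eqE := fun p hp w => by
    show r * g (w * p.1) = _ • (r * g w)
    rw [hg.eqE p (le_addv s 1 hp), mul_smul_comm]
  eqK := fun h w => by
    show r * g (h * w) = r * g w * u h⁻¹
    rw [hg.eqK, mul_assoc]
  fin := by
    classical
    obtain ⟨S1, h1⟩ := hg.fin
    refine ⟨S1 ∪ S1.image (fun x => x * (cox G).simple s), fun w hw => ?_⟩
    have h' : g w ≠ 0 := fun h => hw (by show r * g w = 0; rw [h, mul_zero])
    obtain ⟨k, x, hx, p, hp, he⟩ := h1 w h'
    rcases addv_mem (fun q hq => commE hG hs hq) hp with h | ⟨q, hq, rfl⟩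
    · exact ⟨k, x, Finset.mem_union_left _ hx, p, h, he⟩
    · refine ⟨k, x * (cox G).simple s, Finset.mem_union_right _ (Finset.mem_image_of_mem _ hx), q, hq, ?_⟩
      rw [he]
      show (k : W G) * x * (q.1 * (cox G).simple s) = k * (x * (cox G).simple s) * q.1
      rw [commE hG hs hq]
      simp only [mul_assoc]

theorem inv_s {s : V} {g : W G → R} (hg : InM K u Y (addv E s 1) g) (w : W G) :
    g (w * (cox G).simple s) = g w := by
  have h := hg.eqE _ (mem_addv s 1) w
  simpa using h

end InM

end C722

open C722 in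
open Classical in
theorem con : CON := by
  intro V _ _ G K R _ u L C Y E s i hR hG hs hCL hadj hHv z hz hbz
  set S := (cox G).simple s with hS
  have hSS : S * S = 1 := simple_mul_self G s
  have hsC : s ∉ C := fun h => G.loopless.irrefl s (hadj s h)
  have hM : Lin (InM K u Y E) := lin_InM
  have hcomS : ∀ x ∈ C, (cox G).simple x * S = S * (cox G).simple x := fun x hx =>
    simple_comm G x s (hadj x hx).symm
  obtain ⟨r, hr⟩ : ∃ r : R, ∀ x : R, r * x + r * x = x := by
    obtain ⟨U, hU⟩ := hR.two
    refine ⟨((U⁻¹ : Rˣ) : R), fun x => ?_⟩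
    rw [← add_mul]
    have h1 : ((U⁻¹ : Rˣ) : R) + ((U⁻¹ : Rˣ) : R) = 1 := by
      rw [← mul_two, ← hU, Units.inv_mul]
    rw [h1, one_mul]
  -- the chain on `C`
  set c' : Finset V → W G → R := fun T w => if (T : Set V) ⊆ C then z T w + z T (w * S) else 0 with hc'
  have hc'T : ∀ T : Finset V, (T : Set V) ⊆ C → ∀ w, c' T w = z T w + z T (w * S) := by
    intro T hT w
    rw [hc']
    simp only [if_pos hT]
  have hc'n : ∀ T : Finset V, ¬ (T : Set V) ⊆ C → ∀ w, c' T w = 0 := by
    intro T hT w
    rw [hc']
    simp only [if_neg hT]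
  have hch' : IsCh G C (InM K u Y (addv E s 1)) i c' := by
    refine ⟨fun T hT => ?_, fun T => ?_, fun T t ht w => ?_⟩
    · funext w
      by_cases h : (T : Set V) ⊆ C
      · have h0 : z T = 0 := hz.supp T (fun h' => hT ⟨h'.1, h, h'.2.2⟩)
        rw [hc'T T h, h0]
        simp
      · exact hc'n T h w
    · by_cases h : (T : Set V) ⊆ C
      · have : c' T = fun w => z T w + z T (w * (cox G).simple s) := funext (hc'T T h)
        rw [this]
        exact Phi_mem hG hs (hz.mem T)
      · have : c' T = 0 := funext (hc'n T h)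
        rw [this]
        exact lin_InM.zero
    · by_cases h : (T : Set V) ⊆ C
      · rw [hc'T T h, hc'T T h, hz.anti T t ht, mul_assoc, hcomS t (h ht), ← mul_assoc,
          hz.anti T t ht, neg_add]
      · rw [hc'n T h, hc'n T h, neg_zero]
  -- values of the boundary
  have hsplit : ∀ (T : Finset V), (T : Set V) ⊆ C → ∀ w, bdf G z T w =
      sg s T • z (insert s T) w +
        ∑ v ∈ Tᶜ.filter (fun v => v ∈ C), sg v T • z (insert v T) w := by
    intro T hT w
    have hsT : s ∉ T := fun h => hsC (hT h)
    unfold bdf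
    rw [← Finset.add_sum_erase _ _ (Finset.mem_compl.2 hsT)]
    congr 1
    symm
    apply Finset.sum_subset
    · intro v hv
      rw [Finset.mem_filter] at hv
      rw [Finset.mem_erase]
      exact ⟨fun h => hsC (h ▸ hv.2), hv.1⟩
    · intro v hv hv2
      rw [Finset.mem_erase] at hv
      have hvC : v ∉ C := fun h => hv2 (Finset.mem_filter.2 ⟨hv.2, h⟩)
      rw [hz.supp (insert v T), Pi.zero_apply, smul_zero]
      rintro ⟨-, h2, -⟩
      rcases h2 (Finset.mem_coe.2 (Finset.mem_insert_self v T)) with h3 | h3
      · exact hv.1 h3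
      · exact hvC h3
  have hbc' : bdf G c' = 0 := by
    funext T w
    by_cases hT : (T : Set V) ⊆ C
    · have h1 := hsplit T hT w
      have h2 := hsplit T hT (w * S)
      rw [hbz] at h1 h2
      have h3 : z (insert s T) (w * S) = - z (insert s T) w :=
        hz.anti _ s (Finset.mem_insert_self s T) w
      rw [h3] at h2
      have h4 : bdf G c' T w = ∑ v ∈ Tᶜ.filter (fun v => v ∈ C), sg v T • z (insert v T) w +
          ∑ v ∈ Tᶜ.filter (fun v => v ∈ C), sg v T • z (insert v T) (w * S) := by
        unfold bdf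
        rw [← Finset.sum_add_distrib, Finset.sum_filter]
        apply Finset.sum_congr rfl
        intro v _
        by_cases hv : v ∈ C
        · rw [if_pos hv, hc'T, smul_add]
          intro x hx
          rw [Finset.coe_insert] at hx
          rcases hx with h | h
          · rw [h]; exact hv
          · exact hT h
        · rw [if_neg hv, hc'n, smul_zero]
          intro h
          exact hv (h (Finset.mem_coe.2 (Finset.mem_insert_self v T)))
      rw [h4, Pi.zero_apply, Pi.zero_apply]
      simp only [Pi.zero_apply, smul_neg] at h1 h2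
      have h5 : ∑ v ∈ Tᶜ.filter (fun v => v ∈ C), sg v T • z (insert v T) w =
          - (sg s T • z (insert s T) w) := by
        rw [eq_neg_iff_add_eq_zero, add_comm]; exact h1.symm
      have h6 : ∑ v ∈ Tᶜ.filter (fun v => v ∈ C), sg v T • z (insert v T) (w * S) =
          sg s T • z (insert s T) w := by
        have := h2.symm
        rwa [neg_add_eq_zero, eq_comm] at this
      rw [h5, h6, neg_add_cancel]
    · unfold bdf
      rw [Pi.zero_apply, Pi.zero_apply]
      apply Finset.sum_eq_zero
      intro v _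
      rw [hc'n, smul_zero]
      intro h
      exact hT (fun x hx => h (Finset.mem_coe.2 (Finset.mem_insert_of_mem hx)))
  obtain ⟨e', he', hbe'⟩ := hHv c' hch' hbc'
  -- the lift
  set e1 : Finset V → W G → R := fun T w => r * e' T w with he1
  have hche1 : IsCh G (insert s C) (InM K u Y E) (i + 1) e1 := by
    refine ⟨fun T hT => ?_, fun T => half_mem hG hs r (he'.mem T), fun T t ht w => ?_⟩
    · funext w
      have h0 : e' T = 0 := he'.supp T
        (fun h' => hT ⟨h'.1, h'.2.1.trans (Set.subset_insert _ _), h'.2.2⟩)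
      show r * e' T w = 0
      rw [h0, Pi.zero_apply, mul_zero]
    · show r * e' T (w * (cox G).simple t) = - (r * e' T w)
      rw [he'.anti T t ht, mul_neg]
  set z1 := z - bdf G e1 with hz1
  have hchz1 : IsCh G (insert s C) (InM K u Y E) i z1 := ch_sub hM hz (ch_bdf hM hche1)
  have hbz1 : bdf G z1 = 0 := by
    rw [hz1, bdf_sub, bdf_bdf, hbz, sub_zero]
  have hanti : ∀ T : Finset V, (T : Set V) ⊆ C → ∀ w, z1 T (w * S) = - z1 T w := by
    intro T hT w
    have h1 : bdf G e1 T w + bdf G e1 T (w * S) = bdf G e' T w := by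
      unfold bdf
      rw [← Finset.sum_add_distrib]
      apply Finset.sum_congr rfl
      intro v _
      rw [← smul_add]
      congr 1
      show r * e' (insert v T) w + r * e' (insert v T) (w * S) = e' (insert v T) w
      rw [inv_s (he'.mem _), hr]
    rw [hbe', hc'T T hT] at h1
    have h2 : z1 T (w * S) + z1 T w = 0 := by
      show z T (w * S) - bdf G e1 T (w * S) + (z T w - bdf G e1 T w) = 0
      calc z T (w * S) - bdf G e1 T (w * S) + (z T w - bdf G e1 T w)
          = (z T w + z T (w * S)) - (bdf G e1 T w + bdf G e1 T (w * S)) := by abel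
        _ = 0 := by rw [h1, sub_self]
    exact eq_neg_of_add_eq_zero_left h2
  have hsub : ∀ T : Finset V, s ∉ T → ¬ (T : Set V) ⊆ C → z1 T = 0 := by
    intro T hsT hT
    apply hchz1.supp T
    rintro ⟨-, h2, -⟩
    apply hT
    intro x hx
    rcases h2 hx with h | h
    · exact absurd (h ▸ hx) hsT
    · exact h
  set e2 : Finset V → W G → R := fun U w => if s ∈ U then sg s (U.erase s) • z1 (U.erase s) w else 0
    with he2
  have he2p : ∀ U, s ∈ U → e2 U = sg s (U.erase s) • z1 (U.erase s) := by
    intro U hU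
    funext w
    simp only [he2, if_pos hU, Pi.smul_apply]
  have he2n : ∀ U, s ∉ U → e2 U = 0 := by
    intro U hU
    funext w
    simp only [he2, if_neg hU, Pi.zero_apply]
  have hche2 : IsCh G (insert s C) (InM K u Y E) (i + 1) e2 := by
    refine ⟨fun U hU => ?_, fun U => ?_, fun U t ht w => ?_⟩
    · by_cases hsU : s ∈ U
      · rw [he2p U hsU, hchz1.supp (U.erase s), smul_zero]
        rintro ⟨h1, h2, h3⟩
        apply hU
        have hU' : insert s (U.erase s) = U := Finset.insert_erase hsU
        have hCU : ((U.erase s : Finset V) : Set V) ⊆ C := by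
          intro x hx
          rcases h2 hx with h | h
          · rw [h] at hx
            simp at hx
          · exact h
        refine ⟨?_, ?_, ?_⟩
        · rw [← hU', Finset.coe_insert, SimpleGraph.isClique_insert]
          exact ⟨h1, fun b hb _ => hadj b (hCU hb)⟩
        · rw [← hU', Finset.coe_insert]
          exact Set.insert_subset_insert hCU
        · rw [← hU', Finset.card_insert_of_notMem (Finset.notMem_erase s U), h3]
      · exact he2n U hsU
    · by_cases hsU : s ∈ U
      · rw [he2p U hsU]
        exact hM.sgn (hchz1.mem _) _ _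
      · rw [he2n U hsU]
        exact hM.zero
    · by_cases hsU : s ∈ U
      · rw [he2p U hsU, Pi.smul_apply, Pi.smul_apply, ← smul_neg]
        congr 1
        by_cases hts : t = s
        · rw [hts]
          by_cases hC : ((U.erase s : Finset V) : Set V) ⊆ C
          · exact hanti _ hC w
          · rw [hsub _ (Finset.notMem_erase s U) hC]
            simp
        · exact hchz1.anti _ t (Finset.mem_erase.2 ⟨hts, ht⟩) w
      · rw [he2n U hsU]
        simp
  have hbe2 : ∀ T : Finset V, s ∉ T → bdf G e2 T = z1 T := by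
    intro T hT
    funext w
    unfold bdf
    rw [Finset.sum_eq_single s]
    · rw [he2p _ (Finset.mem_insert_self s T), Finset.erase_insert hT, Pi.smul_apply, smul_smul,
        sg_mul_self, one_smul]
    · intro v hv hvs
      rw [he2n (insert v T), Pi.zero_apply, smul_zero]
      rw [Finset.mem_insert, not_or]
      exact ⟨fun h => hvs h.symm, hT⟩
    · intro h
      exact absurd (Finset.mem_compl.2 hT) h
  set z2 := z1 - bdf G e2 with hz2
  have hbz2 : bdf G z2 = 0 := by
    rw [hz2, bdf_sub, bdf_bdf, hbz1, sub_zero]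
  have hz2n : ∀ T : Finset V, s ∉ T → z2 T = 0 := by
    intro T hT
    rw [hz2, Pi.sub_apply, hbe2 T hT, sub_self]
  have hz20 : z2 = 0 := by
    funext U
    by_cases hsU : s ∈ U
    · funext w
      have h1 : bdf G z2 (U.erase s) w = 0 := by rw [hbz2]; rfl
      unfold bdf at h1
      rw [Finset.sum_eq_single s] at h1
      · rw [Finset.insert_erase hsU] at h1
        rcases sg_eq_or s (U.erase s) with h | h
        · rw [h, one_smul] at h1; exact h1
        · rw [h, neg_smul, one_smul, neg_eq_zero] at h1; exact h1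
      · intro v hv hvs
        rw [hz2n (insert v (U.erase s)), Pi.zero_apply, smul_zero]
        rw [Finset.mem_insert, not_or]
        exact ⟨fun h => hvs h.symm, Finset.notMem_erase s U⟩
      · intro h
        exact absurd (Finset.mem_compl.2 (Finset.notMem_erase s U)) h
    · exact hz2n U hsU
  refine ⟨e1 + e2, ch_add hM hche1 hche2, ?_⟩
  rw [bdf_add]
  have h1 : z1 = bdf G e2 := by
    have := hz20
    rw [hz2, sub_eq_zero] at this
    exact this
  rw [← h1, hz1]
  abel

end Pool.Agent.N496.CV
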