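import Pool.Agent.H7.L.N496_CV_Stm0

/-!
# Project CV (helper496), part FREEP: the sum over the infinite dihedral group on the free locus

Author: helper488.
-/

set_option autoImplicit false
set_option linter.all false

noncomputable section

namespace Pool.Agent.N496.CV

open Pool.Agent.W907.SG Pool.Agent.W461.SGN

namespace FreeP

/-! ### Finite sums -/

section sums

variable {R : Type} [AddCommGroup R]

theorem sum_nat (f : ℕ → R) (hf : (Function.support f).Finite) :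
    ∑ᶠ i, f i = f 0 + ∑ᶠ i, f (i + 1) := by
  letI : TopologicalSpace R := ⊥
  haveI : DiscreteTopology R := ⟨rfl⟩
  have h1 : (Function.support fun i => f (i + 1)).Finite :=
    hf.preimage (f := fun i : ℕ => i + 1) (fun a _ b _ h => by simpa using h)
  rw [← tsum_eq_finsum (L := SummationFilter.unconditional ℕ) hf,
    ← tsum_eq_finsum (L := SummationFilter.unconditional ℕ) h1]
  exact (summable_of_finite_support hf).tsum_eq_zero_add

theorem sum_int (f : ℤ → R) (hf : (Function.support f).Finite) :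
    ∑ᶠ i, f i = ∑ᶠ i : ℕ, f i + ∑ᶠ i : ℕ, f (-((i : ℤ) + 1)) := by
  letI : TopologicalSpace R := ⊥
  haveI : DiscreteTopology R := ⟨rfl⟩
  have h1 : (Function.support fun i : ℕ => f i).Finite :=
    hf.preimage (f := fun i : ℕ => (i : ℤ)) (fun a _ b _ h => by simpa using h)
  have h2 : (Function.support fun i : ℕ => f (-((i : ℤ) + 1))).Finite :=
    hf.preimage (f := fun i : ℕ => (-((i : ℤ) + 1))) (fun a _ b _ h => by simpa using h)
  rw [← tsum_eq_finsum (L := SummationFilter.unconditional ℤ) hf,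
    ← tsum_eq_finsum (L := SummationFilter.unconditional ℕ) h1,
    ← tsum_eq_finsum (L := SummationFilter.unconditional ℕ) h2]
  exact tsum_of_nat_of_neg_add_one (summable_of_finite_support h1)
    (summable_of_finite_support h2)

end sums

/-! ### The context -/

variable {V : Type} {G : SimpleGraph V}

/-- the facts on `K`, `Y`, `E` and on the new group which are used -/
structure Cx (K : Subgroup (W G)) (Y F : Set (W G)) (E E' : Subgroup (W G × ℤˣ)) (a b : W G) :
    Prop where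
  aa : a * a = 1
  bb : b * b = 1
  ca : ∀ p ∈ E, p.1 * a = a * p.1
  cb : ∀ p ∈ E, p.1 * b = b * p.1
  inf : ∀ n : ℤ, (a * b) ^ n = 1 → n = 0
  triv : ∀ p ∈ E, p.1 ∈ Subgroup.closure {a, b} → p.1 = 1
  E'_eq : E' = E ⊔ Subgroup.closure {(a, 1), (b, 1)}
  FY : F ⊆ Y
  FK : ∀ h ∈ K, ∀ w, h * w ∈ F ↔ w ∈ F
  FE : ∀ p ∈ E', ∀ w, w * p.1 ∈ F ↔ w ∈ F
  free : ∀ w ∈ F, ∀ p ∈ E', w * p.1 * w⁻¹ ∈ K → p = 1

section ctx

variable {K : Subgroup (W G)} {Y F : Set (W G)} {E E' : Subgroup (W G × ℤˣ)} {a b : W G}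
  (c : Cx K Y F E E' a b)

include c

theorem Cx.EE' : E ≤ E' := by rw [c.E'_eq]; exact le_sup_left

theorem Cx.ainv : a⁻¹ = a := inv_eq_of_mul_eq_one_right c.aa

theorem Cx.binv : b⁻¹ = b := inv_eq_of_mul_eq_one_right c.bb

theorem Cx.az (n : ℤ) : a * (a * b) ^ n = (a * b) ^ (-n) * a := by
  have h1 : a * (a * b) * a⁻¹ = (a * b)⁻¹ := by
    rw [mul_inv_rev, c.binv, c.ainv, ← mul_assoc, c.aa, one_mul]
  have h2 : a * (a * b) ^ n * a⁻¹ = (a * b) ^ (-n) := by
    rw [← conj_zpow, h1, inv_zpow, zpow_neg]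
  rw [← h2, inv_mul_cancel_right]

/-- the dihedral group -/
theorem Cx.mem_D (x : W G) : x ∈ Subgroup.closure {a, b} ↔
    ∃ n : ℤ, x = (a * b) ^ n ∨ x = (a * b) ^ n * a := by
  constructor
  · intro hx
    let P : Subgroup (W G) :=
      { carrier := {x | ∃ n : ℤ, x = (a * b) ^ n ∨ x = (a * b) ^ n * a}
        one_mem' := ⟨0, Or.inl (by simp)⟩
        mul_mem' := by
          rintro x y ⟨n, hn⟩ ⟨m, hm⟩
          rcases hn with rfl | rfl <;> rcases hm with rfl | rfl
          · exact ⟨n + m, Or.inl (by rw [zpow_add])⟩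
          · exact ⟨n + m, Or.inr (by rw [zpow_add, mul_assoc])⟩
          · exact ⟨n + -m, Or.inr (by rw [zpow_add, mul_assoc, c.az, mul_assoc])⟩
          · refine ⟨n + -m, Or.inl ?_⟩
            rw [zpow_add, mul_assoc, ← mul_assoc a, c.az, mul_assoc, c.aa, mul_one]
        inv_mem' := by
          rintro x ⟨n, hn⟩
          rcases hn with rfl | rfl
          · exact ⟨-n, Or.inl (by rw [zpow_neg])⟩
          · refine ⟨n, Or.inr ?_⟩
            rw [mul_inv_rev, c.ainv, ← zpow_neg, c.az, neg_neg] }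
    have hP : Subgroup.closure {a, b} ≤ P := by
      rw [Subgroup.closure_le]
      rintro y (rfl | rfl)
      · exact ⟨0, Or.inr (by simp)⟩
      · refine ⟨-1, Or.inr ?_⟩
        rw [zpow_neg_one, mul_inv_rev, c.binv, c.ainv, mul_assoc, c.aa, mul_one]
    exact hP hx
  · have ha : a ∈ Subgroup.closure {a, b} := Subgroup.subset_closure (by simp)
    have hb : b ∈ Subgroup.closure {a, b} := Subgroup.subset_closure (by simp)
    rintro ⟨n, rfl | rfl⟩
    · exact Subgroup.zpow_mem _ (Subgroup.mul_mem _ ha hb) n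
    · exact Subgroup.mul_mem _ (Subgroup.zpow_mem _ (Subgroup.mul_mem _ ha hb) n) ha

theorem Cx.z_mem (n : ℤ) : (a * b) ^ n ∈ Subgroup.closure {a, b} := (c.mem_D _).2 ⟨n, Or.inl rfl⟩

theorem Cx.za_mem (n : ℤ) : (a * b) ^ n * a ∈ Subgroup.closure {a, b} :=
  (c.mem_D _).2 ⟨n, Or.inr rfl⟩

theorem Cx.z_inj {n m : ℤ} (h : (a * b) ^ n = (a * b) ^ m) : n = m := by
  have := c.inf (n - m) (by rw [zpow_sub, h, mul_inv_cancel])
  omega

theorem Cx.z_ne (n m : ℤ) : (a * b) ^ n ≠ (a * b) ^ m * a := by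
  intro h
  have e : a = (a * b) ^ (n - m) := by
    rw [sub_eq_neg_add, zpow_add, h, zpow_neg, inv_mul_cancel_left]
  have h1 := c.az 1
  have h2 : (a * b) ^ (n - m) * (a * b) ^ (1 : ℤ) = (a * b) ^ (-1 : ℤ) * (a * b) ^ (n - m) := by
    rw [← e]
    exact h1
  rw [← zpow_add, ← zpow_add] at h2
  have := c.z_inj h2
  omega

theorem Cx.D_comm {d : W G} (hd : d ∈ Subgroup.closure {a, b}) {p : W G × ℤˣ} (hp : p ∈ E) :
    p.1 * d = d * p.1 := by
  have h : Subgroup.closure {a, b} ≤ Subgroup.centralizer {p.1} := by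
    rw [Subgroup.closure_le]
    rintro y (rfl | rfl)
    · exact Subgroup.mem_centralizer_singleton_iff.2 (c.ca p hp).symm
    · exact Subgroup.mem_centralizer_singleton_iff.2 (c.cb p hp).symm
  exact (Subgroup.mem_centralizer_singleton_iff.1 (h hd)).symm

theorem Cx.D_E' {d : W G} (hd : d ∈ Subgroup.closure {a, b}) : ((d, 1) : W G × ℤˣ) ∈ E' := by
  have h : Subgroup.closure {a, b} ≤ E'.comap (MonoidHom.inl (W G) ℤˣ) := by
    rw [Subgroup.closure_le]
    rintro y hy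
    show ((y, 1) : W G × ℤˣ) ∈ E'
    rw [c.E'_eq]
    refine Subgroup.mem_sup_right (Subgroup.subset_closure ?_)
    rcases hy with rfl | rfl <;> simp
  exact h hd

/-- the new group is a product -/
theorem Cx.dec {p : W G × ℤˣ} (hp : p ∈ E') : ∃ e ∈ E, ∃ d ∈ Subgroup.closure {a, b},
    p = e * (d, 1) := by
  let P : Subgroup (W G × ℤˣ) :=
    { carrier := {p | ∃ e ∈ E, ∃ d ∈ Subgroup.closure {a, b}, p = e * (d, 1)}
      one_mem' := ⟨1, E.one_mem, 1, Subgroup.one_mem _, by rw [one_mul]; rfl⟩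
      mul_mem' := by
        rintro x y ⟨e, he, d, hd, rfl⟩ ⟨e', he', d', hd', rfl⟩
        refine ⟨e * e', E.mul_mem he he', d * d', Subgroup.mul_mem _ hd hd', ?_⟩
        ext
        · show e.1 * d * (e'.1 * d') = e.1 * e'.1 * (d * d')
          rw [mul_assoc, ← mul_assoc d, ← c.D_comm hd he']
          simp only [mul_assoc]
        · show (((e.2 * 1) * (e'.2 * 1) : ℤˣ) : ℤ) = ((e.2 * e'.2 * (1 * 1) : ℤˣ) : ℤ)
          simp
      inv_mem' := by
        rintro x ⟨e, he, d, hd, rfl⟩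
        refine ⟨e⁻¹, E.inv_mem he, d⁻¹, Subgroup.inv_mem _ hd, ?_⟩
        ext
        · show (e.1 * d)⁻¹ = e.1⁻¹ * d⁻¹
          rw [c.D_comm hd he, mul_inv_rev]
        · show (((e.2 * 1)⁻¹ : ℤˣ) : ℤ) = ((e.2⁻¹ * 1 : ℤˣ) : ℤ)
          simp }
  have hP : E' ≤ P := by
    rw [c.E'_eq]
    refine sup_le (fun e he => ⟨e, he, 1, Subgroup.one_mem _, ?_⟩) ?_
    · ext <;> simp
    · rw [Subgroup.closure_le]
      rintro y hy
      refine ⟨1, E.one_mem, y.1, Subgroup.subset_closure ?_, ?_⟩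
      · rcases hy with rfl | rfl <;> simp
      · rcases hy with rfl | rfl <;> simp
  exact hP hp

theorem Cx.key {w : W G} (hw : w ∈ F) {d : W G} (hd : d ∈ Subgroup.closure {a, b})
    {p : W G × ℤˣ} (hp : p ∈ E) (h : w * (d * p.1) * w⁻¹ ∈ K) : d = 1 := by
  have h1 := c.free w hw ((d, 1) * p) (E'.mul_mem (c.D_E' hd) (c.EE' hp)) h
  have h2 : d * p.1 = 1 := congrArg Prod.fst h1
  have h3 : p.1 = d⁻¹ := eq_inv_of_mul_eq_one_right h2
  have h4 := c.triv p hp (by rw [h3]; exact Subgroup.inv_mem _ hd)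
  rwa [h4, mul_one] at h2

theorem Cx.uniq {w : W G} (hw : w ∈ F) {d d' : W G} (hd : d ∈ Subgroup.closure {a, b})
    (hd' : d' ∈ Subgroup.closure {a, b}) {h h' : W G} (hh : h ∈ K) (hh' : h' ∈ K) {x : W G}
    {p p' : W G × ℤˣ} (hp : p ∈ E) (hp' : p' ∈ E) (e : w * d = h * x * p.1)
    (e' : w * d' = h' * x * p'.1) : d = d' := by
  have h1 : d * d'⁻¹ = 1 := by
    refine c.key hw (Subgroup.mul_mem _ hd (Subgroup.inv_mem _ hd')) (p := p⁻¹ * p')
      (E.mul_mem (E.inv_mem hp) hp') ?_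
    have e1 : w * (d * d'⁻¹ * (p⁻¹ * p').1) * w⁻¹ = h * h'⁻¹ := by
      have e2 : d'⁻¹ * (p⁻¹ * p').1 = (p⁻¹ * p').1 * d'⁻¹ :=
        (c.D_comm (Subgroup.inv_mem _ hd') (E.mul_mem (E.inv_mem hp) hp')).symm
      rw [mul_assoc d, e2]
      have e3 : (p⁻¹ * p').1 = p.1⁻¹ * p'.1 := rfl
      rw [e3]
      have e4 : w * (d * (p.1⁻¹ * p'.1 * d'⁻¹)) * w⁻¹ =
          (w * d) * p.1⁻¹ * (p'.1 * (w * d')⁻¹) := by group
      rw [e4, e, e']
      group
    rw [e1]
    exact K.mul_mem hh (K.inv_mem hh')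
  exact mul_inv_eq_one.1 h1

end ctx

/-! ### The sums -/

/-- the sum over a pair of neighbours -/
def T {R : Type} [Ring R] (a b : W G) (f : W G → R) (w : W G) (n : ℤ) : R :=
  f (w * (a * b) ^ n) + f (w * ((a * b) ^ n * a))

open Classical in
/-- the sum over the dihedral group -/
def Phi {R : Type} [Ring R] (F : Set (W G)) (a b : W G) (f : W G → R) (w : W G) : R :=
  if w ∈ F then ∑ᶠ n : ℤ, T a b f w n else 0

/-- the sum over a half line -/
def H {R : Type} [Ring R] (a b : W G) (f : W G → R) (w : W G) : R :=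
  ∑ᶠ i : ℕ, T a b f w (-((i : ℤ) + 1))

section phi

variable {K : Subgroup (W G)} {Y F : Set (W G)} {E E' : Subgroup (W G × ℤˣ)} {a b : W G}
  {R : Type} [Ring R] {u : K →* R} {f g : W G → R}

theorem fin_D (c : Cx K Y F E E' a b) (hf : InM K u Y E f) {w : W G} (hw : w ∈ F) :
    {d | d ∈ Subgroup.closure {a, b} ∧ f (w * d) ≠ 0}.Finite := by
  classical
  obtain ⟨S, hS⟩ := hf.fin
  have h1 : ∀ d, ∃ x, (d ∈ Subgroup.closure {a, b} ∧ f (w * d) ≠ 0) →
      x ∈ S ∧ ∃ h : K, ∃ p ∈ E, w * d = h * x * p.1 := by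
    intro d
    by_cases hd : d ∈ Subgroup.closure {a, b} ∧ f (w * d) ≠ 0
    · obtain ⟨h, x, hx, p, hp, e⟩ := hS _ hd.2
      exact ⟨x, fun _ => ⟨hx, h, p, hp, e⟩⟩
    · exact ⟨1, fun h => absurd h hd⟩
  choose φ hφ using h1
  refine Set.Finite.of_injOn (f := φ) (t := (S : Set (W G))) ?_ ?_ S.finite_toSet
  · intro d hd
    exact (hφ d hd).1
  · intro d hd d' hd' he
    obtain ⟨-, h, p, hp, e⟩ := hφ d hd
    obtain ⟨-, h', p', hp', e'⟩ := hφ d' hd'
    rw [← he] at e'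
    exact c.uniq hw hd.1 hd'.1 h.2 h'.2 hp hp' e e'

theorem fin_T (c : Cx K Y F E E' a b) (hf : InM K u Y E f) {w : W G} (hw : w ∈ F) :
    (Function.support (T a b f w)).Finite := by
  have h := fin_D c hf hw
  have h1 : {n : ℤ | f (w * (a * b) ^ n) ≠ 0}.Finite :=
    (h.preimage (f := fun n : ℤ => (a * b) ^ n) (fun n _ m _ e => c.z_inj e)).subset
      fun n hn => ⟨c.z_mem n, hn⟩
  have h2 : {n : ℤ | f (w * ((a * b) ^ n * a)) ≠ 0}.Finite :=
    (h.preimage (f := fun n : ℤ => (a * b) ^ n * a)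
      (fun n _ m _ e => c.z_inj (mul_right_cancel e))).subset fun n hn => ⟨c.za_mem n, hn⟩
  refine (h1.union h2).subset fun n hn => ?_
  by_contra hcon
  rw [Set.mem_union, not_or] at hcon
  apply hn
  have e1 : f (w * (a * b) ^ n) = 0 := not_not.1 hcon.1
  have e2 : f (w * ((a * b) ^ n * a)) = 0 := not_not.1 hcon.2
  show f (w * (a * b) ^ n) + f (w * ((a * b) ^ n * a)) = 0
  rw [e1, e2, add_zero]

theorem fin_H (c : Cx K Y F E E' a b) (hf : InM K u Y E f) {w : W G} (hw : w ∈ F) :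
    (Function.support fun i : ℕ => T a b f w (-((i : ℤ) + 1))).Finite :=
  (fin_T c hf hw).preimage (f := fun i : ℕ => (-((i : ℤ) + 1)))
    (fun a _ b _ h => by simpa using h)

theorem T_E (c : Cx K Y F E E' a b) (hf : InM K u Y E f) {p : W G × ℤˣ} (hp : p ∈ E) (w : W G)
    (n : ℤ) : T a b f (w * p.1) n = ((p.2 : ℤˣ) : ℤ) • T a b f w n := by
  unfold T
  rw [mul_assoc w, mul_assoc w, c.D_comm (c.z_mem n) hp, c.D_comm (c.za_mem n) hp, ← mul_assoc w,
    ← mul_assoc w, hf.eqE p hp, hf.eqE p hp, smul_add]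

theorem T_K (hf : InM K u Y E f) (h : K) (w : W G) (n : ℤ) :
    T a b f (h * w) n = T a b f w n * u h⁻¹ := by
  unfold T
  rw [mul_assoc, mul_assoc, hf.eqK, hf.eqK, add_mul]

theorem T_z (f : W G → R) (w : W G) (m n : ℤ) :
    T a b f (w * (a * b) ^ m) n = T a b f w (m + n) := by
  unfold T
  rw [zpow_add, mul_assoc, mul_assoc, mul_assoc]

theorem T_a (c : Cx K Y F E E' a b) (f : W G → R) (w : W G) (n : ℤ) :
    T a b f (w * a) n = T a b f w (-n) := by
  unfold T
  rw [mul_assoc w, mul_assoc w, c.az, ← mul_assoc a, c.az, mul_assoc _ a a, c.aa, mul_one,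
    add_comm]

theorem units_smul_finsum {ι : Type} (e : ℤˣ) (φ : ι → R) :
    ∑ᶠ i, ((e : ℤˣ) : ℤ) • φ i = ((e : ℤˣ) : ℤ) • ∑ᶠ i, φ i := by
  rcases Int.units_eq_one_or e with rfl | rfl
  · simp
  · simp [finsum_neg_distrib]

theorem H_E (c : Cx K Y F E E' a b) (hf : InM K u Y E f) {p : W G × ℤˣ} (hp : p ∈ E) (w : W G) :
    H a b f (w * p.1) = ((p.2 : ℤˣ) : ℤ) • H a b f w := by
  unfold H
  simp_rw [T_E c hf hp]
  exact units_smul_finsum _ _

theorem H_K (c : Cx K Y F E E' a b) (hf : InM K u Y E f) (h : K) {w : W G} (hw : w ∈ F) :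
    H a b f (h * w) = H a b f w * u h⁻¹ := by
  unfold H
  simp_rw [T_K hf h]
  exact (finsum_mul' _ _ (fin_H c hf hw)).symm

theorem Phi_of_mem {w : W G} (hw : w ∈ F) : Phi F a b f w = ∑ᶠ n : ℤ, T a b f w n := if_pos hw

theorem Phi_of_notMem {w : W G} (hw : w ∉ F) : Phi F a b f w = 0 := if_neg hw

/-- the relations of a function form a subgroup -/
def rels (φ : W G → R) : Subgroup (W G × ℤˣ) where
  carrier := {p | ∀ w, φ (w * p.1) = ((p.2 : ℤˣ) : ℤ) • φ w}
  one_mem' := by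
    intro w
    show φ (w * 1) = ((1 : ℤˣ) : ℤ) • φ w
    simp
  mul_mem' := by
    intro p q hp hq w
    show φ (w * (p.1 * q.1)) = ((p.2 * q.2 : ℤˣ) : ℤ) • φ w
    rw [← mul_assoc, hq, hp, smul_smul, Units.val_mul, mul_comm]
  inv_mem' := by
    intro p hp w
    show φ (w * p.1⁻¹) = ((p.2⁻¹ : ℤˣ) : ℤ) • φ w
    have h := hp (w * p.1⁻¹)
    rw [inv_mul_cancel_right] at h
    rw [h, smul_smul, ← Units.val_mul, inv_mul_cancel, Units.val_one, one_smul]

theorem mem_rels {φ : W G → R} {p : W G × ℤˣ} :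
    p ∈ rels φ ↔ ∀ w, φ (w * p.1) = ((p.2 : ℤˣ) : ℤ) • φ w := Iff.rfl

theorem Phi_InM (c : Cx K Y F E E' a b) (hf : InM K u Y E f) : InM K u F E' (Phi F a b f) := by
  refine ⟨?_, ?_, ?_, ?_⟩
  · intro w hw
    by_contra h
    exact hw (Phi_of_notMem h)
  · have h : E' ≤ rels (Phi F a b f) := by
      have hE := c.EE'
      have ha : ((a, 1) : W G × ℤˣ) ∈ E' := c.D_E' (Subgroup.subset_closure (by simp))
      have hb : ((b, 1) : W G × ℤˣ) ∈ E' := c.D_E' (Subgroup.subset_closure (by simp))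
      have gen : ∀ p ∈ E', (∀ w ∈ F, ∑ᶠ n : ℤ, T a b f (w * p.1) n =
          ((p.2 : ℤˣ) : ℤ) • ∑ᶠ n : ℤ, T a b f w n) → p ∈ rels (Phi F a b f) := by
        intro p hp h w
        by_cases hw : w ∈ F
        · rw [Phi_of_mem hw, Phi_of_mem ((c.FE p hp w).2 hw), h w hw]
        · rw [Phi_of_notMem hw, Phi_of_notMem (fun h' => hw ((c.FE p hp w).1 h')), smul_zero]
      have h1 : ((a, 1) : W G × ℤˣ) ∈ rels (Phi F a b f) := by
        refine gen _ ha fun w hw => ?_
        show ∑ᶠ n : ℤ, T a b f (w * a) n = ((1 : ℤˣ) : ℤ) • ∑ᶠ n : ℤ, T a b f w n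
        rw [Units.val_one, one_smul]
        simp_rw [T_a c]
        exact finsum_comp_equiv (Equiv.neg ℤ) (f := T a b f w)
      have h2 : ((a * b, 1) : W G × ℤˣ) ∈ rels (Phi F a b f) := by
        refine gen _ (by simpa using E'.mul_mem ha hb) fun w hw => ?_
        show ∑ᶠ n : ℤ, T a b f (w * (a * b)) n = ((1 : ℤˣ) : ℤ) • ∑ᶠ n : ℤ, T a b f w n
        rw [Units.val_one, one_smul]
        have e : ∀ n : ℤ, T a b f (w * (a * b)) n = T a b f w (1 + n) := by
          intro n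
          have := T_z (a := a) (b := b) f w 1 n
          rwa [zpow_one] at this
        simp_rw [e]
        exact finsum_comp_equiv (Equiv.addLeft (1 : ℤ)) (f := T a b f w)
      rw [c.E'_eq]
      refine sup_le (fun p hp => gen p (hE hp) fun w hw => ?_) ?_
      · simp_rw [T_E c hf hp]
        exact units_smul_finsum _ _
      · rw [Subgroup.closure_le]
        rintro p (rfl | rfl)
        · exact h1
        · have h3 := (rels (Phi F a b f)).mul_mem h1 h2
          have e : ((a, 1) : W G × ℤˣ) * (a * b, 1) = (b, 1) := by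
            ext
            · show a * (a * b) = b
              rw [← mul_assoc, c.aa, one_mul]
            · simp
          rwa [e] at h3
    exact fun p hp w => mem_rels.1 (h hp) w
  · intro h w
    by_cases hw : w ∈ F
    · rw [Phi_of_mem hw, Phi_of_mem ((c.FK h h.2 w).2 hw)]
      simp_rw [T_K hf h]
      exact (finsum_mul' _ _ (fin_T c hf hw)).symm
    · rw [Phi_of_notMem hw, Phi_of_notMem (fun h' => hw ((c.FK h h.2 w).1 h')), zero_mul]
  · obtain ⟨S, hS⟩ := hf.fin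
    refine ⟨S, fun w hw => ?_⟩
    have hwF : w ∈ F := by
      by_contra h
      exact hw (Phi_of_notMem h)
    rw [Phi_of_mem hwF] at hw
    have h1 : ∃ d ∈ Subgroup.closure {a, b}, f (w * d) ≠ 0 := by
      by_contra hcon
      push Not at hcon
      apply hw
      have : ∀ n, T a b f w n = 0 := by
        intro n
        unfold T
        rw [hcon _ (c.z_mem n), hcon _ (c.za_mem n), add_zero]
      simp_rw [this]
      exact finsum_zero
    obtain ⟨d, hd, h2⟩ := h1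
    obtain ⟨h, x, hx, p, hp, e⟩ := hS _ h2
    refine ⟨h, x, hx, p * (d, 1)⁻¹, E'.mul_mem (c.EE' hp) (E'.inv_mem (c.D_E' hd)), ?_⟩
    show w = h * x * (p.1 * d⁻¹)
    rw [← mul_assoc, ← e, mul_inv_cancel_right]

theorem Phi_add (c : Cx K Y F E E' a b) (hf : InM K u Y E f) (hg : InM K u Y E g) :
    Phi F a b (f + g) = Phi F a b f + Phi F a b g := by
  funext w
  rw [Pi.add_apply]
  by_cases hw : w ∈ F
  · rw [Phi_of_mem hw, Phi_of_mem hw, Phi_of_mem hw,
      ← finsum_add_distrib (fin_T c hf hw) (fin_T c hg hw)]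
    refine finsum_congr fun n => ?_
    simp only [T, Pi.add_apply]
    abel
  · rw [Phi_of_notMem hw, Phi_of_notMem hw, Phi_of_notMem hw, add_zero]

theorem Phi_neg : Phi F a b (-f) = - Phi F a b f := by
  funext w
  rw [Pi.neg_apply]
  by_cases hw : w ∈ F
  · rw [Phi_of_mem hw, Phi_of_mem hw, ← finsum_neg_distrib]
    refine finsum_congr fun n => ?_
    simp only [T, Pi.neg_apply]
    abel
  · rw [Phi_of_notMem hw, Phi_of_notMem hw, neg_zero]

theorem Phi_zero : Phi F a b (0 : W G → R) = 0 := by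
  funext w
  by_cases hw : w ∈ F
  · rw [Phi_of_mem hw]
    have : ∀ n, T a b (0 : W G → R) w n = 0 := fun n => by simp [T]
    simp_rw [this]
    exact finsum_zero
  · rw [Phi_of_notMem hw]
    rfl

theorem Phi_anti (c : Cx K Y F E E' a b) (hf : InM K u Y E f)
    (h : (∀ w, f (w * a) = - f w) ∨ ∀ w, f (w * b) = - f w) : Phi F a b f = 0 := by
  funext w
  by_cases hw : w ∈ F
  swap
  · rw [Phi_of_notMem hw]; rfl
  rw [Phi_of_mem hw]
  rcases h with h | h
  · have : ∀ n, T a b f w n = 0 := by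
      intro n
      unfold T
      rw [← mul_assoc, h, add_neg_cancel]
    simp_rw [this]
    exact finsum_zero
  · have e : ∀ n, T a b f w n = f (w * (a * b) ^ n) + - f (w * (a * b) ^ (n + 1)) := by
      intro n
      unfold T
      rw [← h, zpow_add_one]
      congr 2
      have : a * b * b = a := by rw [mul_assoc, c.bb, mul_one]
      rw [mul_assoc w, mul_assoc ((a * b) ^ n), this]
    have h1 : (Function.support fun n : ℤ => f (w * (a * b) ^ n)).Finite :=
      ((fin_D c hf hw).preimage (f := fun n : ℤ => (a * b) ^ n)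
        (fun n _ m _ e => c.z_inj e)).subset fun n hn => ⟨c.z_mem n, hn⟩
    have h2 : (Function.support fun n : ℤ => - f (w * (a * b) ^ (n + 1))).Finite := by
      refine (h1.preimage (f := fun n : ℤ => n + 1) (fun a _ b _ h => by simpa using h)).subset
        fun n hn => ?_
      intro h
      apply hn
      have h' : f (w * (a * b) ^ (n + 1)) = 0 := h
      show - f (w * (a * b) ^ (n + 1)) = 0
      rw [h', neg_zero]
    simp_rw [e]
    rw [finsum_add_distrib h1 h2, finsum_neg_distrib]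
    have h3 := finsum_comp_equiv (Equiv.addRight (1 : ℤ)) (f := fun n : ℤ => f (w * (a * b) ^ n))
    have h4 : ∑ᶠ n : ℤ, f (w * (a * b) ^ (n + 1)) = ∑ᶠ n : ℤ, f (w * (a * b) ^ n) := h3
    rw [h4, add_neg_cancel]
    rfl

theorem Phi_comm (c : Cx K Y F E E' a b) {v : W G} (hva : v * a = a * v) (hvb : v * b = b * v)
    (hvF : ∀ w, w * v ∈ F ↔ w ∈ F) (w : W G) :
    Phi F a b (fun x => f (x * v)) w = Phi F a b f (w * v) := by
  have hD : ∀ d ∈ Subgroup.closure {a, b}, v * d = d * v := by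
    have h : Subgroup.closure {a, b} ≤ Subgroup.centralizer {v} := by
      rw [Subgroup.closure_le]
      rintro y (rfl | rfl)
      · exact Subgroup.mem_centralizer_singleton_iff.2 hva.symm
      · exact Subgroup.mem_centralizer_singleton_iff.2 hvb.symm
    exact fun d hd => (Subgroup.mem_centralizer_singleton_iff.1 (h hd)).symm
  by_cases hw : w ∈ F
  · rw [Phi_of_mem hw, Phi_of_mem ((hvF w).2 hw)]
    refine finsum_congr fun n => ?_
    have e1 : w * (a * b) ^ n * v = w * v * (a * b) ^ n := by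
      rw [mul_assoc, ← hD _ (c.z_mem n), mul_assoc]
    have e2 : w * ((a * b) ^ n * a) * v = w * v * ((a * b) ^ n * a) := by
      rw [mul_assoc, ← hD _ (c.za_mem n), mul_assoc]
    show f (w * (a * b) ^ n * v) + f (w * ((a * b) ^ n * a) * v) = _
    rw [e1, e2]
    rfl
  · rw [Phi_of_notMem hw, Phi_of_notMem (fun h => hw ((hvF w).1 h))]

end phi

/-! ### Representatives -/

section rep

variable {K : Subgroup (W G)} {Y F : Set (W G)} {E E' : Subgroup (W G × ℤˣ)} {a b : W G}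

/-- the orbits of `K` and `E'` -/
def st (K : Subgroup (W G)) (E' : Subgroup (W G × ℤˣ)) : Setoid (W G) where
  r w w' := ∃ h ∈ K, ∃ p ∈ E', w' = h * w * p.1
  iseqv :=
    { refl := fun w => ⟨1, K.one_mem, 1, E'.one_mem, by simp⟩
      symm := by
        rintro w w' ⟨h, hh, p, hp, rfl⟩
        refine ⟨h⁻¹, K.inv_mem hh, p⁻¹, E'.inv_mem hp, ?_⟩
        show w = h⁻¹ * (h * w * p.1) * p.1⁻¹
        group
      trans := by
        rintro w w' w'' ⟨h, hh, p, hp, rfl⟩ ⟨h', hh', p', hp', rfl⟩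
        refine ⟨h' * h, K.mul_mem hh' hh, p * p', E'.mul_mem hp hp', ?_⟩
        show h' * (h * w * p.1) * p'.1 = h' * h * w * (p.1 * p'.1)
        group }

/-- the chosen representative -/
def rep (K : Subgroup (W G)) (E' : Subgroup (W G × ℤˣ)) (w : W G) : W G :=
  (Quotient.mk (st K E') w).out

theorem rep_eq {w w' : W G} (h : ∃ h ∈ K, ∃ p ∈ E', w' = h * w * p.1) :
    rep K E' w' = rep K E' w := by
  unfold rep
  rw [Quotient.sound (s := st K E') (show (st K E').r w w' from h)]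

theorem rep_rel (w : W G) : ∃ h ∈ K, ∃ p ∈ E', w = h * rep K E' w * p.1 := by
  have h := Quotient.mk_out (s := st K E') w
  exact h

theorem rep_K {h : W G} (hh : h ∈ K) (w : W G) : rep K E' (h * w) = rep K E' w :=
  rep_eq ⟨h, hh, 1, E'.one_mem, by simp⟩

theorem rep_E' {p : W G × ℤˣ} (hp : p ∈ E') (w : W G) : rep K E' (w * p.1) = rep K E' w :=
  rep_eq ⟨1, K.one_mem, p, hp, by simp⟩

theorem rep_D (c : Cx K Y F E E' a b) {d : W G} (hd : d ∈ Subgroup.closure {a, b}) (w : W G) :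
    rep K E' (w * d) = rep K E' w := rep_E' (p := (d, 1)) (c.D_E' hd) w

theorem rep_F (c : Cx K Y F E E' a b) {w : W G} (hw : w ∈ F) : rep K E' w ∈ F := by
  obtain ⟨h, hh, p, hp, e⟩ := rep_rel (K := K) (E' := E') w
  rw [e, c.FE p hp, c.FK h hh] at hw
  exact hw

/-- the orbits of `K` and `E` of the representatives -/
def Z (K : Subgroup (W G)) (E E' : Subgroup (W G × ℤˣ)) : Set (W G) :=
  {w | ∃ h ∈ K, ∃ p ∈ E, w = h * rep K E' w * p.1}

theorem Z_K {h : W G} (hh : h ∈ K) (w : W G) : h * w ∈ Z K E E' ↔ w ∈ Z K E E' := by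
  have key : ∀ h ∈ K, ∀ w, w ∈ Z K E E' → h * w ∈ Z K E E' := by
    rintro h hh w ⟨k, hk, p, hp, e⟩
    refine ⟨h * k, K.mul_mem hh hk, p, hp, ?_⟩
    rw [rep_K hh]
    conv_lhs => rw [e]
    group
  refine ⟨fun hw => ?_, key h hh w⟩
  have := key h⁻¹ (K.inv_mem hh) _ hw
  rwa [inv_mul_cancel_left] at this

theorem Z_E (c : Cx K Y F E E' a b) {p : W G × ℤˣ} (hp : p ∈ E) (w : W G) :
    w * p.1 ∈ Z K E E' ↔ w ∈ Z K E E' := by
  have key : ∀ p ∈ E, ∀ w, w ∈ Z K E E' → w * p.1 ∈ Z K E E' := by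
    rintro p hp w ⟨k, hk, q, hq, e⟩
    refine ⟨k, hk, q * p, E.mul_mem hq hp, ?_⟩
    rw [rep_E' (c.EE' hp)]
    show w * p.1 = k * rep K E' w * (q.1 * p.1)
    conv_lhs => rw [e]
    group
  refine ⟨fun hw => ?_, key p hp w⟩
  have := key p⁻¹ (E.inv_mem hp) _ hw
  have e : w * p.1 * (p⁻¹).1 = w := by
    show w * p.1 * p.1⁻¹ = w
    group
  rwa [e] at this

/-- existence and uniqueness of the coordinate -/
theorem Z_ex (c : Cx K Y F E E' a b) (w : W G) :
    ∃ d ∈ Subgroup.closure {a, b}, w * d ∈ Z K E E' := by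
  obtain ⟨h, hh, p, hp, e⟩ := rep_rel (K := K) (E' := E') w
  obtain ⟨q, hq, d, hd, rfl⟩ := c.dec hp
  refine ⟨d⁻¹, Subgroup.inv_mem _ hd, h, hh, q, hq, ?_⟩
  rw [rep_D c (Subgroup.inv_mem _ hd)]
  conv_lhs => rw [e]
  show h * rep K E' w * (q.1 * d) * d⁻¹ = _
  group

theorem Z_uniq (c : Cx K Y F E E' a b) {w : W G} (hw : w ∈ F) {d d' : W G}
    (hd : d ∈ Subgroup.closure {a, b}) (hd' : d' ∈ Subgroup.closure {a, b})
    (h : w * d ∈ Z K E E') (h' : w * d' ∈ Z K E E') : d = d' := by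
  obtain ⟨k, hk, p, hp, e⟩ := h
  obtain ⟨k', hk', p', hp', e'⟩ := h'
  rw [rep_D c hd] at e
  rw [rep_D c hd'] at e'
  exact c.uniq hw hd hd' hk hk' hp hp' e e'

variable {R : Type} [Ring R] {u : K →* R} {f g : W G → R}

open Classical in
theorem Phi_surj (c : Cx K Y F E E' a b) (hg : InM K u F E' g) :
    ∃ f, InM K u Y E f ∧ Phi F a b f = g := by
  let f : W G → R := fun w => if w ∈ Z K E E' then g w else 0
  have hf1 : ∀ w ∈ Z K E E', f w = g w := fun w hw => if_pos hw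
  have hf0 : ∀ w, w ∉ Z K E E' → f w = 0 := fun w hw => if_neg hw
  refine ⟨f, ⟨?_, ?_, ?_, ?_⟩, ?_⟩
  · intro w hw
    by_cases h : w ∈ Z K E E'
    · rw [hf1 w h] at hw
      exact c.FY (hg.supp w hw)
    · exact absurd (hf0 w h) hw
  · intro p hp w
    by_cases h : w ∈ Z K E E'
    · rw [hf1 w h, hf1 _ ((Z_E c hp w).2 h), hg.eqE p (c.EE' hp)]
    · rw [hf0 w h, hf0 _ (fun h' => h ((Z_E c hp w).1 h')), smul_zero]
  · intro h w
    by_cases hw : w ∈ Z K E E'
    · rw [hf1 w hw, hf1 _ ((Z_K h.2 w).2 hw), hg.eqK]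
    · rw [hf0 w hw, hf0 _ (fun h' => hw ((Z_K h.2 w).1 h')), zero_mul]
  · obtain ⟨S, hS⟩ := hg.fin
    refine ⟨S.image (rep K E'), fun w hw => ?_⟩
    by_cases h : w ∈ Z K E E'
    swap
    · exact absurd (hf0 w h) hw
    rw [hf1 w h] at hw
    obtain ⟨k, x, hx, p, hp, e⟩ := hS w hw
    have h1 : rep K E' w = rep K E' x := rep_eq ⟨k, k.2, p, hp, e⟩
    obtain ⟨k', hk', p', hp', e'⟩ := h
    exact ⟨⟨k', hk'⟩, rep K E' w, Finset.mem_image.2 ⟨x, hx, h1.symm⟩, p', hp', e'⟩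
  · funext w
    by_cases hw : w ∈ F
    swap
    · rw [Phi_of_notMem hw]
      by_contra h
      exact hw (hg.supp w (Ne.symm h))
    rw [Phi_of_mem hw]
    have hgD : ∀ d ∈ Subgroup.closure {a, b}, g (w * d) = g w := by
      intro d hd
      have := hg.eqE (d, 1) (c.D_E' hd) w
      simpa using this
    obtain ⟨d, hd, hdZ⟩ := Z_ex c w
    have hfd : f (w * d) = g w := by rw [hf1 _ hdZ, hgD d hd]
    have hfo : ∀ d' ∈ Subgroup.closure {a, b}, d' ≠ d → f (w * d') = 0 := by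
      intro d' hd' hne
      apply hf0
      intro h
      exact hne (Z_uniq c hw hd' hd h hdZ)
    rcases (c.mem_D d).1 hd with ⟨m, rfl | rfl⟩
    · rw [finsum_eq_single _ m]
      · unfold T
        rw [hfd, hfo _ (c.za_mem m) (fun h => c.z_ne _ _ h.symm), add_zero]
      · intro n hn
        unfold T
        rw [hfo _ (c.z_mem n) (fun h => hn (c.z_inj h)),
          hfo _ (c.za_mem n) (fun h => c.z_ne _ _ h.symm), add_zero]
    · rw [finsum_eq_single _ m]
      · unfold T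
        rw [hfd, hfo _ (c.z_mem m) (fun h => c.z_ne _ _ h), zero_add]
      · intro n hn
        unfold T
        rw [hfo _ (c.z_mem n) (fun h => c.z_ne _ _ h),
          hfo _ (c.za_mem n) (fun h => hn (c.z_inj (mul_right_cancel h))), add_zero]

end rep

/-! ### The kernel -/

section ker

variable {K : Subgroup (W G)} {Y F : Set (W G)} {E E' : Subgroup (W G × ℤˣ)} {a b : W G}

/-- the points at even distance from the representatives -/
def Ev (K : Subgroup (W G)) (E E' : Subgroup (W G × ℤˣ)) (a b : W G) : Set (W G) :=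
  {w | ∃ n : ℤ, w * (a * b) ^ n ∈ Z K E E'}

theorem Ev_z (w : W G) (m : ℤ) : w * (a * b) ^ m ∈ Ev K E E' a b ↔ w ∈ Ev K E E' a b := by
  constructor
  · rintro ⟨n, hn⟩
    refine ⟨m + n, ?_⟩
    rwa [zpow_add, ← mul_assoc]
  · rintro ⟨n, hn⟩
    refine ⟨-m + n, ?_⟩
    have e : w * (a * b) ^ m * (a * b) ^ (-m + n) = w * (a * b) ^ n := by
      rw [mul_assoc, ← zpow_add]
      congr 2
      ring
    rwa [e]

theorem Ev_K {h : W G} (hh : h ∈ K) (w : W G) :
    h * w ∈ Ev K E E' a b ↔ w ∈ Ev K E E' a b := by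
  constructor
  · rintro ⟨n, hn⟩
    rw [mul_assoc] at hn
    exact ⟨n, (Z_K hh _).1 hn⟩
  · rintro ⟨n, hn⟩
    refine ⟨n, ?_⟩
    rw [mul_assoc]
    exact (Z_K hh _).2 hn

theorem Ev_E (c : Cx K Y F E E' a b) {p : W G × ℤˣ} (hp : p ∈ E) (w : W G) :
    w * p.1 ∈ Ev K E E' a b ↔ w ∈ Ev K E E' a b := by
  have e : ∀ n : ℤ, w * p.1 * (a * b) ^ n = w * (a * b) ^ n * p.1 := by
    intro n
    rw [mul_assoc, c.D_comm (c.z_mem n) hp, mul_assoc]
  constructor
  · rintro ⟨n, hn⟩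
    rw [e] at hn
    exact ⟨n, (Z_E c hp _).1 hn⟩
  · rintro ⟨n, hn⟩
    refine ⟨n, ?_⟩
    rw [e]
    exact (Z_E c hp _).2 hn

theorem Ev_a (c : Cx K Y F E E' a b) {w : W G} (hw : w ∈ F) :
    w * a ∈ Ev K E E' a b ↔ w ∉ Ev K E E' a b := by
  have e : ∀ n : ℤ, w * a * (a * b) ^ n = w * ((a * b) ^ (-n) * a) := by
    intro n
    rw [mul_assoc, c.az]
  constructor
  · rintro ⟨n, hn⟩ ⟨m, hm⟩
    rw [e] at hn
    exact c.z_ne _ _ (Z_uniq c hw (c.z_mem m) (c.za_mem (-n)) hm hn)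
  · intro h
    obtain ⟨d, hd, hdZ⟩ := Z_ex c w
    rcases (c.mem_D d).1 hd with ⟨m, rfl | rfl⟩
    · exact absurd ⟨m, hdZ⟩ h
    · refine ⟨-m, ?_⟩
      rw [e, neg_neg]
      exact hdZ

variable {R : Type} [Ring R] {u : K →* R} {f g : W G → R}

open Classical in
/-- the antiinvariant part -/
def Pf (K : Subgroup (W G)) (F : Set (W G)) (E E' : Subgroup (W G × ℤˣ)) (a b : W G)
    (f : W G → R) (w : W G) : R :=
  if w ∈ F then
    (if w ∈ Ev K E E' a b then f w + H a b f w else -(f (w * a) + H a b f (w * a))) else 0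

theorem Pf_ev {w : W G} (hw : w ∈ F) (h : w ∈ Ev K E E' a b) :
    Pf K F E E' a b f w = f w + H a b f w := by
  unfold Pf
  rw [if_pos hw, if_pos h]

theorem Pf_odd {w : W G} (hw : w ∈ F) (h : w ∉ Ev K E E' a b) :
    Pf K F E E' a b f w = -(f (w * a) + H a b f (w * a)) := by
  unfold Pf
  rw [if_pos hw, if_neg h]

theorem Pf_out {w : W G} (hw : w ∉ F) : Pf K F E E' a b f w = 0 := by
  unfold Pf
  rw [if_neg hw]

theorem F_D (c : Cx K Y F E E' a b) {d : W G} (hd : d ∈ Subgroup.closure {a, b}) (w : W G) :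
    w * d ∈ F ↔ w ∈ F := c.FE (d, 1) (c.D_E' hd) w

theorem a_mem (a b : W G) : a ∈ Subgroup.closure {a, b} := Subgroup.subset_closure (by simp)

theorem b_mem (a b : W G) : b ∈ Subgroup.closure {a, b} := Subgroup.subset_closure (by simp)

theorem H_step (c : Cx K Y F E E' a b) (hf : InM K u Y E f) {w : W G} (hw : w ∈ F) :
    H a b f w = T a b f w (-1) + H a b f (w * (a * b) ^ (-1 : ℤ)) := by
  have h1 := sum_nat _ (fin_H c hf hw)
  have e0 : T a b f w (-(((0 : ℕ) : ℤ) + 1)) = T a b f w (-1) := by norm_num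
  have e2 : H a b f (w * (a * b) ^ (-1 : ℤ)) =
      ∑ᶠ i : ℕ, T a b f w (-(((i + 1 : ℕ) : ℤ) + 1)) := by
    unfold H
    refine finsum_congr fun i => ?_
    rw [T_z]
    congr 1
    push_cast
    ring
  calc H a b f w = T a b f w (-(((0 : ℕ) : ℤ) + 1)) +
        ∑ᶠ i : ℕ, T a b f w (-(((i + 1 : ℕ) : ℤ) + 1)) := h1
    _ = _ := by rw [e0, e2]

theorem Pf_a (c : Cx K Y F E E' a b) (w : W G) :
    Pf K F E E' a b f (w * a) = - Pf K F E E' a b f w := by
  by_cases hw : w ∈ F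
  · have hwa := (F_D c (a_mem a b) w).2 hw
    by_cases h : w ∈ Ev K E E' a b
    · rw [Pf_ev hw h, Pf_odd hwa (fun h' => (Ev_a c hw).1 h' h), mul_assoc, c.aa, mul_one]
    · rw [Pf_odd hw h, Pf_ev hwa ((Ev_a c hw).2 h), neg_neg]
  · rw [Pf_out hw, Pf_out (fun h => hw ((F_D c (a_mem a b) w).1 h)), neg_zero]

theorem z_inv_a (c : Cx K Y F E E' a b) : (a * b) ^ (-1 : ℤ) * a = b := by
  rw [zpow_neg_one, mul_inv_rev, c.binv, c.ainv, mul_assoc, c.aa, mul_one]

theorem Q_b_aux (c : Cx K Y F E E' a b) (hf : InM K u Y E f) {w : W G} (hw : w ∈ F)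
    (h : w ∈ Ev K E E' a b) : f (w * b) - Pf K F E E' a b f (w * b) =
      -(f w - Pf K F E E' a b f w) := by
  have hz : w * (a * b) ^ (-1 : ℤ) ∈ F := (F_D c (c.z_mem _) w).2 hw
  have hzE : w * (a * b) ^ (-1 : ℤ) ∈ Ev K E E' a b := (Ev_z w _).2 h
  have e1 : w * b = w * (a * b) ^ (-1 : ℤ) * a := by rw [mul_assoc, z_inv_a c]
  have e2 : w * b * a = w * (a * b) ^ (-1 : ℤ) := by rw [e1, mul_assoc, c.aa, mul_one]
  have hwb : w * b ∈ F := (F_D c (b_mem a b) w).2 hw
  have hwbE : w * b ∉ Ev K E E' a b := by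
    rw [e1]
    exact fun h' => (Ev_a c hz).1 h' hzE
  have e3 : T a b f w (-1) = f (w * (a * b) ^ (-1 : ℤ)) + f (w * b) := by
    unfold T
    rw [z_inv_a c]
  rw [Pf_ev hw h, Pf_odd hwb hwbE, e2, H_step c hf hw, e3]
  abel

theorem Q_b (c : Cx K Y F E E' a b) (hf : InM K u Y E f) (h0 : ∀ w, w ∉ F → f w = 0) (w : W G) :
    f (w * b) - Pf K F E E' a b f (w * b) = -(f w - Pf K F E E' a b f w) := by
  by_cases hw : w ∈ F
  swap
  · have hwb : w * b ∉ F := fun h => hw ((F_D c (b_mem a b) w).1 h)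
    rw [h0 _ hw, h0 _ hwb, Pf_out hw, Pf_out hwb, sub_zero, neg_zero]
  by_cases h : w ∈ Ev K E E' a b
  · exact Q_b_aux c hf hw h
  · have hwb : w * b ∈ F := (F_D c (b_mem a b) w).2 hw
    have hz : w * (a * b) ^ (-1 : ℤ) ∈ F := (F_D c (c.z_mem _) w).2 hw
    have e1 : w * b = w * (a * b) ^ (-1 : ℤ) * a := by rw [mul_assoc, z_inv_a c]
    have hE : w * b ∈ Ev K E E' a b := by
      rw [e1]
      exact (Ev_a c hz).2 (fun h' => h ((Ev_z w _).1 h'))
    have := Q_b_aux c hf hwb hE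
    rw [mul_assoc, c.bb, mul_one] at this
    rw [this, neg_neg]

/-- signs -/
def sb (a : W G) (α : Bool) : W G := if α then a else 1

theorem sb_mem (a b : W G) (α : Bool) : sb a α ∈ Subgroup.closure {a, b} := by
  cases α
  · exact Subgroup.one_mem _
  · exact a_mem a b

theorem sb_sb (c : Cx K Y F E E' a b) (α : Bool) : sb a α * sb a α = 1 := by
  cases α
  · exact one_mul 1
  · exact c.aa

theorem fin_A (c : Cx K Y F E E' a b) (S : Finset (W G)) :
    {m : ℕ | ∃ x ∈ S, ∃ x' ∈ S, ∃ α β : Bool, ∃ h ∈ K, ∃ p ∈ E, x ∈ F ∧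
      x' = h * (x * (sb a α * (a * b) ^ (m : ℤ) * sb a β)) * p.1}.Finite := by
  have hsub : {m : ℕ | ∃ x ∈ S, ∃ x' ∈ S, ∃ α β : Bool, ∃ h ∈ K, ∃ p ∈ E, x ∈ F ∧
      x' = h * (x * (sb a α * (a * b) ^ (m : ℤ) * sb a β)) * p.1} ⊆
      ⋃ x ∈ S, ⋃ x' ∈ S, ⋃ α : Bool, ⋃ β : Bool, {m : ℕ | ∃ h ∈ K, ∃ p ∈ E, x ∈ F ∧
        x' = h * (x * (sb a α * (a * b) ^ (m : ℤ) * sb a β)) * p.1} := by
    rintro m ⟨x, hx, x', hx', α, β, h⟩
    simp only [Set.mem_iUnion]
    exact ⟨x, hx, x', hx', α, β, h⟩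
  refine Set.Finite.subset ?_ hsub
  refine Set.Finite.biUnion S.finite_toSet fun x _ => Set.Finite.biUnion S.finite_toSet
    fun x' _ => Set.finite_iUnion fun α => Set.finite_iUnion fun β => Set.Subsingleton.finite ?_
  rintro m ⟨h, hh, p, hp, hxF, e⟩ m' ⟨h', hh', p', hp', -, e'⟩
  have hd : ∀ m : ℕ, sb a α * (a * b) ^ (m : ℤ) * sb a β ∈ Subgroup.closure {a, b} := fun m =>
    Subgroup.mul_mem _ (Subgroup.mul_mem _ (sb_mem a b α) (c.z_mem _)) (sb_mem a b β)
  have e1 : x * (sb a α * (a * b) ^ (m : ℤ) * sb a β) = h⁻¹ * x' * (p⁻¹).1 := by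
    rw [e]
    show _ = h⁻¹ * (h * (x * (sb a α * (a * b) ^ (m : ℤ) * sb a β)) * p.1) * p.1⁻¹
    group
  have e2 : x * (sb a α * (a * b) ^ (m' : ℤ) * sb a β) = h'⁻¹ * x' * (p'⁻¹).1 := by
    rw [e']
    show _ = h'⁻¹ * (h' * (x * (sb a α * (a * b) ^ (m' : ℤ) * sb a β)) * p'.1) * p'.1⁻¹
    group
  have h3 := c.uniq hxF (hd m) (hd m') (K.inv_mem hh) (K.inv_mem hh') (E.inv_mem hp)
    (E.inv_mem hp') e1 e2
  have h4 := c.z_inj (mul_left_cancel (mul_right_cancel h3))
  exact_mod_cast h4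

theorem Pf_fin (c : Cx K Y F E E' a b) (hf : InM K u Y E f) (hΦ : Phi F a b f = 0) :
    ∃ S : Finset (W G), ∀ w, Pf K F E E' a b f w ≠ 0 →
      ∃ h : K, ∃ x ∈ S, ∃ p ∈ E, w = h * x * p.1 := by
  classical
  obtain ⟨S, hS⟩ := hf.fin
  obtain ⟨N, hN⟩ := (fin_A c S).bddAbove
  refine ⟨((S ×ˢ (Finset.univ : Finset Bool)) ×ˢ
    (Finset.range (N + 1) ×ˢ (Finset.univ : Finset Bool))).image
      (fun q => q.1.1 * (sb a q.1.2 * (a * b) ^ (q.2.1 : ℤ) * sb a q.2.2)), fun w hw => ?_⟩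
  -- reduction to the even case
  obtain ⟨w0, γ, hw0, hwe, hB⟩ : ∃ (w0 : W G) (γ : Bool), w0 ∈ F ∧ w = w0 * sb a γ ∧
      f w0 + H a b f w0 ≠ 0 := by
    have hwF : w ∈ F := by
      by_contra h
      exact hw (Pf_out h)
    by_cases h : w ∈ Ev K E E' a b
    · rw [Pf_ev hwF h] at hw
      exact ⟨w, false, hwF, (mul_one w).symm, hw⟩
    · rw [Pf_odd hwF h] at hw
      refine ⟨w * a, true, (F_D c (a_mem a b) w).2 hwF, ?_, fun h' => hw (by rw [h', neg_zero])⟩
      show w = w * a * a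
      rw [mul_assoc, c.aa, mul_one]
  obtain ⟨i, α, hi⟩ : ∃ (i : ℕ) (α : Bool), f (w0 * ((a * b) ^ (-(i : ℤ)) * sb a α)) ≠ 0 := by
    by_contra hcon
    push Not at hcon
    apply hB
    have h1 : f w0 = 0 := by
      have := hcon 0 false
      simpa [sb] using this
    have h2 : H a b f w0 = 0 := by
      unfold H
      have : ∀ i : ℕ, T a b f w0 (-((i : ℤ) + 1)) = 0 := by
        intro i
        have k1 := hcon (i + 1) false
        have k2 := hcon (i + 1) true
        simp only [sb, mul_one, if_true, Bool.false_eq_true, if_false] at k1 k2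
        push_cast at k1 k2
        unfold T
        rw [k1, k2, add_zero]
      simp_rw [this]
      exact finsum_zero
    rw [h1, h2, add_zero]
  obtain ⟨j, β, hj⟩ : ∃ (j : ℕ) (β : Bool), f (w0 * ((a * b) ^ (j : ℤ) * sb a β)) ≠ 0 := by
    by_contra hcon
    push Not at hcon
    apply hB
    have h1 : f w0 = 0 := by
      have := hcon 0 false
      simpa [sb] using this
    have h2 : H a b f w0 = 0 := by
      have h3 : Phi F a b f w0 = 0 := by rw [hΦ]; rfl
      rw [Phi_of_mem hw0, sum_int _ (fin_T c hf hw0)] at h3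
      have h4 : ∀ i : ℕ, T a b f w0 (i : ℤ) = 0 := by
        intro i
        have k1 := hcon i false
        have k2 := hcon i true
        simp only [sb, mul_one, if_true, Bool.false_eq_true, if_false] at k1 k2
        unfold T
        rw [k1, k2, add_zero]
      simp_rw [h4] at h3
      rw [finsum_zero, zero_add] at h3
      exact h3
    rw [h1, h2, add_zero]
  obtain ⟨h, x, hx, p, hp, e⟩ := hS _ hi
  obtain ⟨h', x', hx', p', hp', e'⟩ := hS _ hj
  have hdi : sb a α * (a * b) ^ (i : ℤ) ∈ Subgroup.closure {a, b} :=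
    Subgroup.mul_mem _ (sb_mem a b α) (c.z_mem _)
  -- the position of `w0`
  have e0 : w0 = h * (x * (sb a α * (a * b) ^ (i : ℤ))) * p.1 := by
    have k1 : w0 = w0 * ((a * b) ^ (-(i : ℤ)) * sb a α) * (sb a α * (a * b) ^ (i : ℤ)) := by
      have k2 : (a * b) ^ (-(i : ℤ)) * sb a α * (sb a α * (a * b) ^ (i : ℤ)) = 1 := by
        rw [mul_assoc, ← mul_assoc (sb a α), sb_sb c, one_mul, ← zpow_add, neg_add_cancel,
          zpow_zero]
      rw [mul_assoc, k2, mul_one]
    rw [k1, e, mul_assoc _ p.1, c.D_comm hdi hp]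
    group
  have hxF : x ∈ F := by
    have k1 : w0 * ((a * b) ^ (-(i : ℤ)) * sb a α) ∈ F :=
      (F_D c (Subgroup.mul_mem _ (c.z_mem _) (sb_mem a b α)) w0).2 hw0
    rw [e, c.FE p (c.EE' hp), c.FK h h.2] at k1
    exact k1
  have hij : i + j ≤ N := by
    apply hN
    refine ⟨x, hx, x', hx', α, β, (h' : W G)⁻¹ * h, K.mul_mem (K.inv_mem h'.2) h.2,
      p * p'⁻¹, E.mul_mem hp (E.inv_mem hp'), hxF, ?_⟩
    have hdj : (a * b) ^ (j : ℤ) * sb a β ∈ Subgroup.closure {a, b} :=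
      Subgroup.mul_mem _ (c.z_mem _) (sb_mem a b β)
    have k1 : x' = (h' : W G)⁻¹ * (w0 * ((a * b) ^ (j : ℤ) * sb a β)) * p'.1⁻¹ := by
      rw [e']
      group
    rw [e0, mul_assoc _ p.1, c.D_comm hdj hp] at k1
    rw [k1]
    show _ = (h' : W G)⁻¹ * h * (x * (sb a α * (a * b) ^ ((i + j : ℕ) : ℤ) * sb a β)) *
      (p.1 * p'.1⁻¹)
    rw [Nat.cast_add, zpow_add]
    simp only [mul_assoc]
  refine ⟨h, x * (sb a α * (a * b) ^ (i : ℤ) * sb a γ), ?_, p, hp, ?_⟩
  · refine Finset.mem_image.2 ⟨((x, α), (i, γ)), ?_, rfl⟩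
    simp only [Finset.mem_product, Finset.mem_univ, and_true, Finset.mem_range]
    exact ⟨hx, by omega⟩
  · rw [hwe]
    conv_lhs => rw [e0]
    rw [mul_assoc _ p.1, c.D_comm (sb_mem a b γ) hp]
    simp only [mul_assoc]

theorem Pf_InM (c : Cx K Y F E E' a b) (hf : InM K u Y E f) (hΦ : Phi F a b f = 0) :
    InM K u Y E (Pf K F E E' a b f) := by
  refine ⟨?_, ?_, ?_, Pf_fin c hf hΦ⟩
  · intro w hw
    by_contra h
    exact hw (Pf_out fun h' => h (c.FY h'))
  · intro p hp w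
    by_cases hw : w ∈ F
    · have hwp := (c.FE p (c.EE' hp) w).2 hw
      by_cases h : w ∈ Ev K E E' a b
      · rw [Pf_ev hw h, Pf_ev hwp ((Ev_E c hp w).2 h), hf.eqE p hp, H_E c hf hp, smul_add]
      · have e : w * p.1 * a = w * a * p.1 := by rw [mul_assoc, c.ca p hp, mul_assoc]
        rw [Pf_odd hw h, Pf_odd hwp (fun h' => h ((Ev_E c hp w).1 h')), e, hf.eqE p hp,
          H_E c hf hp, ← smul_add, smul_neg]
    · rw [Pf_out hw, Pf_out (fun h => hw ((c.FE p (c.EE' hp) w).1 h)), smul_zero]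
  · intro h w
    by_cases hw : w ∈ F
    · have hwp := (c.FK h h.2 w).2 hw
      by_cases hE : w ∈ Ev K E E' a b
      · rw [Pf_ev hw hE, Pf_ev hwp ((Ev_K h.2 w).2 hE), hf.eqK, H_K c hf h hw, add_mul]
      · rw [Pf_odd hw hE, Pf_odd hwp (fun h' => hE ((Ev_K h.2 w).1 h')), mul_assoc, hf.eqK,
          H_K c hf h ((F_D c (a_mem a b) w).2 hw), ← add_mul, neg_mul]
    · rw [Pf_out hw, Pf_out (fun h' => hw ((c.FK h h.2 w).1 h')), zero_mul]

theorem InM_sub (hf : InM K u Y E f) (hg : InM K u Y E g) : InM K u Y E (f - g) := by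
  classical
  refine ⟨?_, ?_, ?_, ?_⟩
  · intro w hw
    by_contra h
    apply hw
    have h1 : f w = 0 := by
      by_contra h'
      exact h (hf.supp w h')
    have h2 : g w = 0 := by
      by_contra h'
      exact h (hg.supp w h')
    show f w - g w = 0
    rw [h1, h2, sub_zero]
  · intro p hp w
    show f (w * p.1) - g (w * p.1) = _ • (f w - g w)
    rw [hf.eqE p hp, hg.eqE p hp, smul_sub]
  · intro h w
    show f (h * w) - g (h * w) = (f w - g w) * _
    rw [hf.eqK, hg.eqK, sub_mul]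
  · obtain ⟨S, hS⟩ := hf.fin
    obtain ⟨S', hS'⟩ := hg.fin
    refine ⟨S ∪ S', fun w hw => ?_⟩
    by_cases h : f w = 0
    · have h' : g w ≠ 0 := by
        intro h'
        apply hw
        show f w - g w = 0
        rw [h, h', sub_zero]
      obtain ⟨k, x, hx, p, hp, e⟩ := hS' w h'
      exact ⟨k, x, Finset.mem_union_right _ hx, p, hp, e⟩
    · obtain ⟨k, x, hx, p, hp, e⟩ := hS w h
      exact ⟨k, x, Finset.mem_union_left _ hx, p, hp, e⟩

theorem Phi_ker (c : Cx K Y F E E' a b) (hf : InM K u Y E f) (hΦ : Phi F a b f = 0)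
    (h0 : ∀ w, w ∉ F → f w = 0) : ∃ p q, InM K u Y E p ∧ InM K u Y E q ∧ f = p + q ∧
      (∀ w, p (w * a) = - p w) ∧ (∀ w, q (w * b) = - q w) := by
  have hP := Pf_InM c hf hΦ
  refine ⟨Pf K F E E' a b f, f - Pf K F E E' a b f, hP, InM_sub hf hP, ?_, Pf_a c, Q_b c hf h0⟩
  abel

end ker

end FreeP

open FreeP in
theorem freep (h : SPEC) : FREEP := by
  intro V _ _ G K R _ u L Y E s t hrg hgd hs ht hst hn
  set a : W G := (cox G).simple s with ha
  set b : W G := (cox G).simple t with hb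
  obtain ⟨hspec1, -, hspec3⟩ := h V G
  obtain ⟨Q, hQ1, hQ2⟩ := hgd.comm
  -- elements of `E` commute with the generators in `L`
  have hcomm : ∀ p ∈ E, ∀ v ∈ L, p.1 * (cox G).simple v = (cox G).simple v * p.1 := by
    intro p hp v hv
    have h1 : Subgroup.closure ((cox G).simple '' Q) ≤
        Subgroup.centralizer {(cox G).simple v} := by
      rw [Subgroup.closure_le]
      rintro y ⟨q, hq, rfl⟩
      exact Subgroup.mem_centralizer_singleton_iff.2 (simple_comm G q v (hQ2 q hq v hv))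
    exact Subgroup.mem_centralizer_singleton_iff.1 (h1 (hQ1 p hp))
  have haa : a * a = 1 := simple_mul_self G s
  have hbb : b * b = 1 := simple_mul_self G t
  have hinf : ∀ n : ℤ, (a * b) ^ n = 1 → n = 0 := by
    intro n hn0
    by_contra hne
    rcases lt_or_gt_of_ne hne with hlt | hgt
    · obtain ⟨m, hm⟩ := Int.eq_ofNat_of_zero_le (a := -n) (by omega)
      have h1 : (a * b) ^ m = 1 := by
        rw [← zpow_natCast, ← hm, zpow_neg, hn0, inv_one]
      exact hspec3 s t hst hn m (by omega) h1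
    · obtain ⟨m, hm⟩ := Int.eq_ofNat_of_zero_le (a := n) (by omega)
      have h1 : (a * b) ^ m = 1 := by
        rw [← zpow_natCast, ← hm, hn0]
      exact hspec3 s t hst hn m (by omega) h1
  have htriv : ∀ p ∈ E, p.1 ∈ Subgroup.closure {a, b} → p.1 = 1 := by
    intro p hp hd
    refine hspec1 Q {s, t} ?_ p.1 (hQ1 p hp) ?_
    · rw [Set.disjoint_left]
      rintro q hq (rfl | rfl)
      · exact G.loopless.irrefl _ (hQ2 _ hq _ hs)
      · exact G.loopless.irrefl _ (hQ2 _ hq _ ht)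
    · rwa [Set.image_pair]
  have hE' : addD E s t = E ⊔ Subgroup.closure {(a, 1), (b, 1)} := rfl
  -- `Y` is invariant
  have hYE : ∀ p ∈ addD E s t, ∀ w, w * p.1 ∈ Y ↔ w ∈ Y := by
    let P : Subgroup (W G × ℤˣ) :=
      { carrier := {p | ∀ w, w * p.1 ∈ Y ↔ w ∈ Y}
        one_mem' := fun w => by
          show w * 1 ∈ Y ↔ w ∈ Y
          rw [mul_one]
        mul_mem' := by
          intro p q hp hq w
          show w * (p.1 * q.1) ∈ Y ↔ w ∈ Y
          rw [← mul_assoc, hq, hp]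
        inv_mem' := by
          intro p hp w
          show w * p.1⁻¹ ∈ Y ↔ w ∈ Y
          rw [← hp (w * p.1⁻¹), inv_mul_cancel_right] }
    have hP : addD E s t ≤ P := by
      rw [hE']
      refine sup_le (fun p hp w => ⟨fun hw => ?_, hgd.YE p hp w⟩) ?_
      · have := hgd.YE p⁻¹ (E.inv_mem hp) _ hw
        have e : w * p.1 * (p⁻¹).1 = w := by
          show w * p.1 * p.1⁻¹ = w
          group
        rwa [e] at this
      · rw [Subgroup.closure_le]
        have key : ∀ v ∈ L, (((cox G).simple v, 1) : W G × ℤˣ) ∈ P := by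
          intro v hv w
          show w * (cox G).simple v ∈ Y ↔ w ∈ Y
          refine ⟨fun hw => ?_, hgd.YL v hv w⟩
          have := hgd.YL v hv _ hw
          rwa [mul_assoc, simple_mul_self, mul_one] at this
        rintro p (rfl | rfl)
        · exact key s hs
        · exact key t ht
    exact fun p hp w => hP hp w
  have hYK : ∀ k ∈ K, ∀ w, k * w ∈ Y ↔ w ∈ Y := by
    intro k hk w
    refine ⟨fun hw => ?_, hgd.YK k hk w⟩
    have := hgd.YK k⁻¹ (K.inv_mem hk) _ hw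
    rwa [inv_mul_cancel_left] at this
  have hFK : ∀ k ∈ K, ∀ w, k * w ∈ fr K Y (addD E s t) ↔ w ∈ fr K Y (addD E s t) := by
    intro k hk w
    have e : ∀ p : W G × ℤˣ, k * w * p.1 * (k * w)⁻¹ ∈ K ↔ w * p.1 * w⁻¹ ∈ K := by
      intro p
      have e1 : k * w * p.1 * (k * w)⁻¹ = k * (w * p.1 * w⁻¹) * k⁻¹ := by group
      rw [e1]
      constructor
      · intro h1
        have := K.mul_mem (K.mul_mem (K.inv_mem hk) h1) hk
        have e2 : k⁻¹ * (k * (w * p.1 * w⁻¹) * k⁻¹) * k = w * p.1 * w⁻¹ := by group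
        rwa [e2] at this
      · intro h1
        exact K.mul_mem (K.mul_mem hk h1) (K.inv_mem hk)
    constructor
    · rintro ⟨h1, h2⟩
      exact ⟨(hYK k hk w).1 h1, fun p hp hpk => h2 p hp ((e p).2 hpk)⟩
    · rintro ⟨h1, h2⟩
      exact ⟨(hYK k hk w).2 h1, fun p hp hpk => h2 p hp ((e p).1 hpk)⟩
  have hFE : ∀ p ∈ addD E s t, ∀ w, w * p.1 ∈ fr K Y (addD E s t) ↔
      w ∈ fr K Y (addD E s t) := by
    intro p hp w
    have e : ∀ q : W G × ℤˣ, w * p.1 * q.1 * (w * p.1)⁻¹ = w * (p * q * p⁻¹).1 * w⁻¹ := by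
      intro q
      show _ = w * (p.1 * q.1 * p.1⁻¹) * w⁻¹
      group
    constructor
    · rintro ⟨h1, h2⟩
      refine ⟨(hYE p hp w).1 h1, fun q hq hqk => ?_⟩
      have h3 := h2 (p⁻¹ * q * p) ((addD E s t).mul_mem ((addD E s t).mul_mem
        ((addD E s t).inv_mem hp) hq) hp) (by
          rw [e]
          have : p * (p⁻¹ * q * p) * p⁻¹ = q := by group
          rwa [this])
      have h4 : p * (p⁻¹ * q * p) * p⁻¹ = q := by group
      rw [← h4, h3]
      group
    · rintro ⟨h1, h2⟩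
      refine ⟨(hYE p hp w).2 h1, fun q hq hqk => ?_⟩
      rw [e] at hqk
      have h3 := h2 (p * q * p⁻¹) ((addD E s t).mul_mem ((addD E s t).mul_mem hp hq)
        ((addD E s t).inv_mem hp)) hqk
      have h4 : p⁻¹ * (p * q * p⁻¹) * p = q := by group
      rw [← h4, h3]
      group
  have c : Cx K Y (fr K Y (addD E s t)) E (addD E s t) a b :=
    { aa := haa
      bb := hbb
      ca := fun p hp => hcomm p hp s hs
      cb := fun p hp => hcomm p hp t ht
      inf := hinf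
      triv := htriv
      E'_eq := hE'
      FY := fun w hw => hw.1
      FK := hFK
      FE := hFE
      free := fun w hw => hw.2 }
  refine ⟨Phi (fr K Y (addD E s t)) a b, fun f hf => Phi_InM c hf,
    fun f g hf hg => Phi_add c hf hg, fun f hf => Phi_neg, Phi_zero, ?_,
    fun f hf hh => Phi_anti c hf hh, fun g hg => Phi_surj c hg,
    fun f hf hΦ h0 => Phi_ker c hf hΦ h0⟩
  intro f hf v hv hsv htv w
  have hva : (cox G).simple v * a = a * (cox G).simple v := (simple_comm G s v hsv).symm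
  have hvb : (cox G).simple v * b = b * (cox G).simple v := (simple_comm G t v htv).symm
  refine Phi_comm c hva hvb ?_ w
  intro w
  -- `v` commutes with `E'`
  have hvE : ∀ p ∈ addD E s t, p.1 * (cox G).simple v = (cox G).simple v * p.1 := by
    intro p hp
    obtain ⟨e, he, d, hd, rfl⟩ := c.dec hp
    have h1 : Subgroup.closure {a, b} ≤ Subgroup.centralizer {(cox G).simple v} := by
      rw [Subgroup.closure_le]
      rintro y (rfl | rfl)
      · exact Subgroup.mem_centralizer_singleton_iff.2 hva.symm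
      · exact Subgroup.mem_centralizer_singleton_iff.2 hvb.symm
    have h2 := Subgroup.mem_centralizer_singleton_iff.1 (h1 hd)
    show e.1 * d * (cox G).simple v = (cox G).simple v * (e.1 * d)
    rw [mul_assoc, h2, ← mul_assoc, hcomm e he v hv, mul_assoc]
  have hY : w * (cox G).simple v ∈ Y ↔ w ∈ Y := by
    refine ⟨fun hw => ?_, hgd.YL v hv w⟩
    have := hgd.YL v hv _ hw
    rwa [mul_assoc, simple_mul_self, mul_one] at this
  have e : ∀ p ∈ addD E s t, w * (cox G).simple v * p.1 * (w * (cox G).simple v)⁻¹ =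
      w * p.1 * w⁻¹ := by
    intro p hp
    have h1 := hvE p hp
    have h2 : (cox G).simple v * p.1 * ((cox G).simple v)⁻¹ = p.1 := by
      rw [← h1, mul_inv_cancel_right]
    have h3 : w * (cox G).simple v * p.1 * (w * (cox G).simple v)⁻¹ =
        w * ((cox G).simple v * p.1 * ((cox G).simple v)⁻¹) * w⁻¹ := by group
    rw [h3, h2]
  constructor
  · rintro ⟨h1, h2⟩
    exact ⟨hY.1 h1, fun p hp hpk => h2 p hp (by rw [e p hp]; exact hpk)⟩
  · rintro ⟨h1, h2⟩
    exact ⟨hY.2 h1, fun p hp hpk => h2 p hp (by rw [← e p hp]; exact hpk)⟩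

end Pool.Agent.N496.CV
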