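import Pool.Agent.H7.L.N496_CV_Stm3
import Pool.Agent.H15.L.N504_RS_Her

/-!
# Project CV: `L²`-Betti numbers of arbitrary covers of Davis manifolds. The main theorem.

`W G` acts on functions `W G → R` from the right, `(f · x) w = f (w x)`. Chains are families `c T : W G → R`, `T` a
clique, with `c T (w t) = - c T w` for `t ∈ T`.
-/

set_option autoImplicit false

noncomputable section

namespace Pool.Agent.N496.CV

open Pool.Agent.W907.SG Pool.Agent.W461.SGN Pool.Agent.N496.LT Pool.Agent.Helper655.VN Pool.Agent.RK
open Pool.Agent.N504.RS Pool.Agent.R782.Bal Pool.Agent.W907.SM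

attribute [local instance] VN831.bcFunctor_additive VN831.viaAdd VN831.viaMod

/-- The main theorem. -/
def Main : Prop := ∀ (d : ℕ) (V : Type) [Fintype V] [LinearOrder V] (G : SimpleGraph V) (κ : V → Fin (d + 1))
    (A : Set V), Mid G (fun v => (κ v : ℕ)) A → Obs G (2 * (d + 1)) →
    ∀ K : Subgroup (W G), K ≤ (th G).ker → ∀ i, d < i → VN831.l2Betti K i = 0

end Pool.Agent.N496.CV
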